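import Mathlib

/-!
# Equivariant projections of `Lip_0(X)` onto the dual space: definitions and transfer
-/

set_option autoImplicit false

namespace Pool.Agent.V1191.ELP

open scoped NNReal

/-- the space `Lip_0(X)` of the Lipschitz functions on `X` which are zero at `0` -/
def Lip0 (X : Type*) [NormedAddCommGroup X] : Submodule ℝ (X → ℝ) where
  carrier := {f | f 0 = 0 ∧ ∃ K : ℝ≥0, LipschitzWith K f}
  add_mem' := by
    rintro f g ⟨hf, K, hK⟩ ⟨hg, L, hL⟩
    exact ⟨by simp [hf, hg], K + L, hK.add hL⟩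
  zero_mem' := ⟨rfl, 0, LipschitzWith.const 0⟩
  smul_mem' := by
    rintro c f ⟨hf, K, hK⟩
    refine ⟨by simp [hf], ‖c‖₊ * K, ?_⟩
    refine LipschitzWith.of_dist_le_mul fun x y => ?_
    have h := hK.dist_le_mul x y
    rw [Real.dist_eq] at h ⊢
    simp only [Pi.smul_apply, smul_eq_mul, ← mul_sub, abs_mul, NNReal.coe_mul, coe_nnnorm,
      Real.norm_eq_abs, mul_assoc]
    exact mul_le_mul_of_nonneg_left h (abs_nonneg c)

/-- `P` is a bounded linear projection of `Lip_0(X)` onto `X^*` (bounded with respect to the least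
Lipschitz constant) which commutes with the composition by the elements of `G` -/
structure IsEquivariantProjection {X : Type*} [NormedAddCommGroup X] [NormedSpace ℝ X]
    (G : Set (X ≃ₗᵢ[ℝ] X)) (P : Lip0 X →ₗ[ℝ] (X →L[ℝ] ℝ)) : Prop where
  bounded : ∃ C : ℝ, ∀ (f : Lip0 X) (K : ℝ≥0), LipschitzWith K (f : X → ℝ) → ‖P f‖ ≤ C * K
  proj : ∀ (φ : X →L[ℝ] ℝ) (f : Lip0 X), (∀ x, (f : X → ℝ) x = φ x) → P f = φ
  equivariant : ∀ g ∈ G, ∀ f h : Lip0 X, (∀ x, (h : X → ℝ) x = (f : X → ℝ) (g x)) →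
    ∀ x, P h x = P f (g x)

/-- the `G`-equivariant dual lifting property for the group `G` of all surjective linear
isometries -/
def HasEquivariantDualLifting (X : Type*) [NormedAddCommGroup X] [NormedSpace ℝ X] : Prop :=
  ∃ P : Lip0 X →ₗ[ℝ] (X →L[ℝ] ℝ), IsEquivariantProjection Set.univ P

theorem mem_Lip0 {X : Type*} [NormedAddCommGroup X] {f : X → ℝ} (h0 : f 0 = 0) {C : ℝ}
    (hC : 0 ≤ C) (h : ∀ x y, |f x - f y| ≤ C * ‖x - y‖) :
    f ∈ Lip0 X ∧ LipschitzWith C.toNNReal f := by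
  have : LipschitzWith C.toNNReal f := by
    refine LipschitzWith.of_dist_le_mul fun x y => ?_
    rw [Real.dist_eq, dist_eq_norm, Real.coe_toNNReal _ hC]
    exact h x y
  exact ⟨⟨h0, _, this⟩, this⟩

/-- Transfer: let `ι : Y → X` and `E : X → Y` be linear contractions with `E ∘ ι = id` and let every
isometry `s` in `H` be induced by an isometry `g` of `X` with `E ∘ g = s ∘ E` and `g ∘ ι = ι ∘ s`.
Then an equivariant projection for `X` gives one for `Y`. -/
theorem transfer {X Y : Type*} [NormedAddCommGroup X] [NormedSpace ℝ X] [NormedAddCommGroup Y]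
    [NormedSpace ℝ Y] (ι : Y →L[ℝ] X) (E : X →L[ℝ] Y) (hι : ‖ι‖ ≤ 1) (hE : ‖E‖ ≤ 1)
    (hEι : ∀ y, E (ι y) = y) (H : Set (Y ≃ₗᵢ[ℝ] Y))
    (hH : ∀ s ∈ H, ∃ g : X ≃ₗᵢ[ℝ] X, (∀ x, E (g x) = s (E x)) ∧ ∀ y, g (ι y) = ι (s y))
    (h : HasEquivariantDualLifting X) :
    ∃ Q : Lip0 Y →ₗ[ℝ] (Y →L[ℝ] ℝ), IsEquivariantProjection H Q := by
  obtain ⟨P, hP⟩ := h
  have hEl : LipschitzWith 1 (E : X → Y) := by
    have := E.lipschitz
    exact this.weaken (by exact_mod_cast hE)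
  have hmem : ∀ f : Lip0 Y, (fun x => (f : Y → ℝ) (E x)) ∈ Lip0 X := by
    intro f
    obtain ⟨h0, K, hK⟩ := f.2
    refine ⟨by simpa using h0, K * 1, hK.comp hEl⟩
  let c : Lip0 Y →ₗ[ℝ] Lip0 X :=
    { toFun := fun f => ⟨fun x => (f : Y → ℝ) (E x), hmem f⟩
      map_add' := fun f g => rfl
      map_smul' := fun a f => rfl }
  let r : (X →L[ℝ] ℝ) →ₗ[ℝ] (Y →L[ℝ] ℝ) :=
    { toFun := fun φ => φ.comp ι
      map_add' := fun φ ψ => by ext; simp
      map_smul' := fun a φ => by ext; simp }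
  refine ⟨r ∘ₗ P ∘ₗ c, ⟨?_, ?_, ?_⟩⟩
  · obtain ⟨C, hC⟩ := hP.bounded
    refine ⟨C, fun f K hK => ?_⟩
    have h1 : LipschitzWith K ((c f : Lip0 X) : X → ℝ) := by
      have := hK.comp hEl
      rw [mul_one] at this
      exact this
    have h2 := hC (c f) K h1
    show ‖(P (c f)).comp ι‖ ≤ C * K
    calc ‖(P (c f)).comp ι‖ ≤ ‖P (c f)‖ * ‖ι‖ := ContinuousLinearMap.opNorm_comp_le _ _
      _ ≤ ‖P (c f)‖ * 1 := mul_le_mul_of_nonneg_left hι (norm_nonneg _)
      _ ≤ C * K := by rw [mul_one]; exact h2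
  · intro φ f hf
    have h1 : P (c f) = φ.comp E := hP.proj (φ.comp E) (c f) (fun x => hf (E x))
    show (P (c f)).comp ι = φ
    rw [h1]
    ext y
    simp [hEι]
  · intro s hs f k hfk y
    obtain ⟨g, hg1, hg2⟩ := hH s hs
    have h1 := hP.equivariant g (Set.mem_univ g) (c f) (c k) (fun x => by
      show (k : Y → ℝ) (E x) = (f : Y → ℝ) (E (g x))
      rw [hfk, hg1]) (ι y)
    show P (c k) (ι y) = P (c f) (ι (s y))
    rw [h1, hg2]

/-- Transfer along a surjective isometry. -/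
theorem HasEquivariantDualLifting.of_iso {X Y : Type*} [NormedAddCommGroup X] [NormedSpace ℝ X]
    [NormedAddCommGroup Y] [NormedSpace ℝ Y] (e : X ≃ₗᵢ[ℝ] Y)
    (h : HasEquivariantDualLifting X) : HasEquivariantDualLifting Y := by
  refine transfer (X := X) (Y := Y) (e.symm.toContinuousLinearEquiv : Y →L[ℝ] X)
    (e.toContinuousLinearEquiv : X →L[ℝ] Y) ?_ ?_ (fun y => by simp) Set.univ ?_ h
  · refine ContinuousLinearMap.opNorm_le_bound _ zero_le_one fun y => ?_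
    simp
  · refine ContinuousLinearMap.opNorm_le_bound _ zero_le_one fun y => ?_
    simp
  · intro s _
    refine ⟨e.trans (s.trans e.symm), fun x => ?_, fun y => ?_⟩ <;> simp

end Pool.Agent.V1191.ELP
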