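import Mathlib
import Pool.Agent.V1191.ELP.Defs

/-!
# The pair functionals on `L_1(ℝ²)`
-/

set_option autoImplicit false

namespace Pool.Agent.V1191.ELP

open MeasureTheory Set Filter
open scoped ENNReal NNReal

section comp

variable {α β : Type*} [MeasurableSpace α] [MeasurableSpace β] {μ : Measure α} {ν : Measure β}

/-- composition with a measure preserving equivalence, as a surjective linear isometry -/
noncomputable def cmp (p : ℝ≥0∞) [Fact (1 ≤ p)] (e : α ≃ᵐ β) (he : MeasurePreserving e μ ν) :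
    Lp ℝ p ν ≃ₗᵢ[ℝ] Lp ℝ p μ :=
  LinearIsometryEquiv.ofSurjective (Lp.compMeasurePreservingₗᵢ ℝ e he) (by
    intro y
    refine ⟨Lp.compMeasurePreserving e.symm (he.symm e) y, ?_⟩
    show Lp.compMeasurePreserving e he (Lp.compMeasurePreserving e.symm (he.symm e) y) = y
    rw [← Lp.compMeasurePreserving_comp_apply]
    refine Lp.ext ((Lp.coeFn_compMeasurePreserving _ _).trans ?_)
    refine Eventually.of_forall fun a => ?_
    simp)

theorem cmp_coe (p : ℝ≥0∞) [Fact (1 ≤ p)] (e : α ≃ᵐ β) (he : MeasurePreserving e μ ν)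
    (x : Lp ℝ p ν) : (cmp p e he x : α → ℝ) =ᵐ[μ] fun a => (x : β → ℝ) (e a) :=
  Lp.coeFn_compMeasurePreserving _ _

theorem cmp_toLp (p : ℝ≥0∞) [Fact (1 ≤ p)] (e : α ≃ᵐ β) (he : MeasurePreserving e μ ν)
    {f : β → ℝ} (hf : MemLp f p ν) :
    cmp p e he (hf.toLp f) = (hf.comp_measurePreserving he).toLp _ := rfl

end comp

/-- the plane -/
abbrev Pl : Type := ℝ × ℝ

/-- `L_1` of the plane -/
abbrev X1 : Type := Lp ℝ 1 (volume : Measure Pl)

/-- the product measure on the pairs of points of the plane -/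
noncomputable abbrev mm : Measure (Pl × Pl) := (volume : Measure Pl).prod volume

/-- the quadratic functional -/
noncomputable def T (κ : Pl → ℝ) (x : X1) : ℝ :=
  ∫ z : Pl × Pl, κ (z.1 - z.2) * ((x : Pl → ℝ) z.1 * |(x : Pl → ℝ) z.2|) ∂mm

theorem norm_eq (x : X1) : ‖x‖ = ∫ a, |(x : Pl → ℝ) a| := by
  rw [L1.norm_eq_integral_norm]
  rfl

theorem norm_sub_eq (x y : X1) : ‖x - y‖ = ∫ a, |(x : Pl → ℝ) a - (y : Pl → ℝ) a| := by
  rw [norm_eq]
  refine integral_congr_ae ?_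
  filter_upwards [Lp.coeFn_sub x y] with a ha
  rw [ha]
  rfl

/-- bounded measurable kernels -/
structure Ker (κ : Pl → ℝ) : Prop where
  meas : Measurable κ
  bdd : ∀ v, |κ v| ≤ 1

theorem int_prod (x : X1) :
    Integrable (fun z : Pl × Pl => (x : Pl → ℝ) z.1 * |(x : Pl → ℝ) z.2|) mm :=
  (L1.integrable_coeFn x).mul_prod (L1.integrable_coeFn x).abs

theorem int_T {κ : Pl → ℝ} (hκ : Ker κ) (x : X1) :
    Integrable (fun z : Pl × Pl => κ (z.1 - z.2) * ((x : Pl → ℝ) z.1 * |(x : Pl → ℝ) z.2|)) mm := by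
  refine (int_prod x).bdd_mul (c := 1) ?_ (Eventually.of_forall fun z => ?_)
  · exact (hκ.meas.comp (measurable_fst.sub measurable_snd)).aestronglyMeasurable
  · exact hκ.bdd _

theorem T_diff {κ : Pl → ℝ} (hκ : Ker κ) (x y : X1) :
    |T κ x - T κ y| ≤ ‖x - y‖ * ‖x‖ + ‖y‖ * ‖x - y‖ := by
  have hx := L1.integrable_coeFn x
  have hy := L1.integrable_coeFn y
  have h1 : Integrable (fun z : Pl × Pl =>
      |(x : Pl → ℝ) z.1 - (y : Pl → ℝ) z.1| * |(x : Pl → ℝ) z.2|) mm :=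
    (hx.sub hy).abs.mul_prod hx.abs
  have h2 : Integrable (fun z : Pl × Pl =>
      |(y : Pl → ℝ) z.1| * |(x : Pl → ℝ) z.2 - (y : Pl → ℝ) z.2|) mm :=
    hy.abs.mul_prod (hx.sub hy).abs
  have h3 : ‖x - y‖ * ‖x‖ + ‖y‖ * ‖x - y‖ = ∫ z : Pl × Pl,
      (|(x : Pl → ℝ) z.1 - (y : Pl → ℝ) z.1| * |(x : Pl → ℝ) z.2| +
      |(y : Pl → ℝ) z.1| * |(x : Pl → ℝ) z.2 - (y : Pl → ℝ) z.2|) ∂mm := by
    rw [integral_add h1 h2,
      integral_prod_mul (fun a => |(x : Pl → ℝ) a - (y : Pl → ℝ) a|) (fun a => |(x : Pl → ℝ) a|),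
      integral_prod_mul (fun a => |(y : Pl → ℝ) a|) (fun a => |(x : Pl → ℝ) a - (y : Pl → ℝ) a|),
      norm_sub_eq, norm_eq, norm_eq]
  rw [h3, T, T, ← integral_sub (int_T hκ x) (int_T hκ y), ← Real.norm_eq_abs]
  refine norm_integral_le_of_norm_le (h1.add h2) (Eventually.of_forall fun z => ?_)
  rw [← mul_sub, Real.norm_eq_abs, abs_mul]
  set a := (x : Pl → ℝ) z.1
  set b := (x : Pl → ℝ) z.2
  set c := (y : Pl → ℝ) z.1
  set d := (y : Pl → ℝ) z.2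
  have h4 : |(a * |b| - c * |d|)| ≤ |a - c| * |b| + |c| * |b - d| := by
    have : a * |b| - c * |d| = (a - c) * |b| + c * (|b| - |d|) := by ring
    rw [this]
    refine (abs_add_le _ _).trans ?_
    rw [abs_mul, abs_abs, abs_mul]
    exact add_le_add le_rfl (mul_le_mul_of_nonneg_left (abs_abs_sub_abs_le b d) (abs_nonneg c))
  calc |κ (z.1 - z.2)| * |(a * |b| - c * |d|)| ≤ 1 * |(a * |b| - c * |d|)| :=
        mul_le_mul_of_nonneg_right (hκ.bdd _) (abs_nonneg _)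
    _ ≤ _ := by rw [one_mul]; exact h4

theorem T_zero (κ : Pl → ℝ) : T κ 0 = 0 := by
  rw [T]
  have : (fun z : Pl × Pl => κ (z.1 - z.2) *
      (((0 : X1) : Pl → ℝ) z.1 * |((0 : X1) : Pl → ℝ) z.2|)) =ᵐ[mm] fun _ => 0 := by
    have h0 : ∀ᵐ a : Pl, ((0 : X1) : Pl → ℝ) a = 0 := Lp.coeFn_zero ℝ 1 _
    have h1 : ∀ᵐ z ∂mm, ((0 : X1) : Pl → ℝ) z.1 = 0 :=
      Measure.quasiMeasurePreserving_fst.ae h0
    filter_upwards [h1] with z hz
    rw [hz, zero_mul, mul_zero]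
  rw [integral_congr_ae this]
  simp

theorem lip_of_quad {X : Type*} [NormedAddCommGroup X] (T : X → ℝ)
    (h : ∀ x y, |T x - T y| ≤ ‖x - y‖ * ‖x‖ + ‖y‖ * ‖x - y‖) (h0 : T 0 = 0) (x y : X) :
    |‖x‖⁻¹ * T x - ‖y‖⁻¹ * T y| ≤ 3 * ‖x - y‖ := by
  have key : ∀ x y : X, ‖y‖ ≤ ‖x‖ → |‖x‖⁻¹ * T x - ‖y‖⁻¹ * T y| ≤ 3 * ‖x - y‖ := by
    intro x y hxy
    have hb : |T y| ≤ ‖y‖ * ‖y‖ := by
      have := h y 0
      rw [h0] at this
      simpa using this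
    have hx' : |T x| ≤ ‖x‖ * ‖x‖ := by
      have := h x 0
      rw [h0] at this
      simpa using this
    have hT := h x y
    have hd : ‖x‖ - ‖y‖ ≤ ‖x - y‖ := norm_sub_norm_le x y
    by_cases hy0 : ‖y‖ = 0
    · have hy1 : y = 0 := norm_eq_zero.1 hy0
      subst hy1
      rw [h0, mul_zero, sub_zero, sub_zero, abs_mul, abs_inv, abs_norm]
      by_cases hx0 : ‖x‖ = 0
      · rw [hx0]
        simp
      · have hx1 : 0 < ‖x‖ := lt_of_le_of_ne (norm_nonneg x) (Ne.symm hx0)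
        rw [inv_mul_le_iff₀ hx1]
        nlinarith
    · have hy1 : 0 < ‖y‖ := lt_of_le_of_ne (norm_nonneg y) (Ne.symm hy0)
      have hx1 : 0 < ‖x‖ := hy1.trans_le hxy
      have e1 : ‖x‖⁻¹ * T x - ‖y‖⁻¹ * T y
          = ‖x‖⁻¹ * ((T x - T y) - ((‖x‖ - ‖y‖) / ‖y‖) * T y) := by
        field_simp
        ring
      rw [e1, abs_mul, abs_inv, abs_norm, inv_mul_le_iff₀ hx1]
      have e2 : |((‖x‖ - ‖y‖) / ‖y‖) * T y| ≤ (‖x‖ - ‖y‖) * ‖y‖ := by
        rw [abs_mul, abs_of_nonneg (div_nonneg (by linarith) hy1.le)]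
        calc (‖x‖ - ‖y‖) / ‖y‖ * |T y| ≤ (‖x‖ - ‖y‖) / ‖y‖ * (‖y‖ * ‖y‖) :=
              mul_le_mul_of_nonneg_left hb (div_nonneg (by linarith) hy1.le)
          _ = (‖x‖ - ‖y‖) * ‖y‖ := by field_simp
      have e3 := abs_sub (T x - T y) (((‖x‖ - ‖y‖) / ‖y‖) * T y)
      have hn : 0 ≤ ‖x - y‖ := norm_nonneg _
      nlinarith [mul_le_mul_of_nonneg_left hxy hn, mul_le_mul_of_nonneg_right hd hy1.le]
  rcases le_total ‖y‖ ‖x‖ with hxy | hxy
  · exact key x y hxy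
  · rw [abs_sub_comm, norm_sub_rev]
    exact key y x hxy

/-- the pair functional -/
noncomputable def F (κ : Pl → ℝ) (x : X1) : ℝ := ‖x‖⁻¹ * T κ x

theorem F_mem {κ : Pl → ℝ} (hκ : Ker κ) : F κ ∈ Lip0 X1 := by
  refine (mem_Lip0 (C := 3) ?_ (by norm_num) ?_).1
  · rw [F, T_zero, mul_zero]
  · exact lip_of_quad (T κ) (T_diff hκ) (T_zero κ)

theorem T_one (x : X1) : T (fun _ => 1) x = (∫ a, (x : Pl → ℝ) a) * ‖x‖ := by
  rw [T, norm_eq]
  simp only [one_mul]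
  exact integral_prod_mul (fun a => (x : Pl → ℝ) a) (fun a => |(x : Pl → ℝ) a|)

theorem F_one (x : X1) :
    F (fun _ => 1) x = L1.integralCLM (E := ℝ) (μ := (volume : Measure Pl)) x := by
  have e : L1.integralCLM (E := ℝ) (μ := (volume : Measure Pl)) x = ∫ a, (x : Pl → ℝ) a := by
    have := L1.integral_eq_integral (μ := (volume : Measure Pl)) x
    rw [← this, L1.integral_eq]
  rw [e, F, T_one]
  by_cases h : ‖x‖ = 0
  · have h1 : x = 0 := norm_eq_zero.1 h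
    rw [h]
    have h0 : ∀ᵐ a : Pl, (x : Pl → ℝ) a = 0 := by
      rw [h1]
      exact Lp.coeFn_zero ℝ 1 _
    rw [integral_congr_ae h0]
    simp
  · field_simp

theorem T_add {κ κ₁ κ₂ : Pl → ℝ} (h₁ : Ker κ₁) (h₂ : Ker κ₂)
    (h : ∀ᵐ v : Pl, κ v = κ₁ v + κ₂ v) (x : X1) : T κ x = T κ₁ x + T κ₂ x := by
  rw [T, T, T, ← integral_add (int_T h₁ x) (int_T h₂ x)]
  refine integral_congr_ae ?_
  have h' : ∀ᵐ z ∂mm, κ (z.1 - z.2) = κ₁ (z.1 - z.2) + κ₂ (z.1 - z.2) :=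
    (quasiMeasurePreserving_sub (volume : Measure Pl) volume).ae h
  filter_upwards [h'] with z hz
  rw [hz]
  ring

theorem T_cmp (e : Pl ≃ᵐ Pl) (he : MeasurePreserving e (volume : Measure Pl) volume)
    {κ κ' : Pl → ℝ} (h : ∀ u v, κ (u - v) = κ' (e u - e v)) (x : X1) :
    T κ (cmp 1 e he x) = T κ' x := by
  have h1 : T κ (cmp 1 e he x) = ∫ z : Pl × Pl,
      (fun w : Pl × Pl => κ' (w.1 - w.2) * ((x : Pl → ℝ) w.1 * |(x : Pl → ℝ) w.2|))
        (e.prodCongr e z) ∂mm := by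
    rw [T]
    refine integral_congr_ae ?_
    have h0 := cmp_coe 1 e he x
    have ha : ∀ᵐ z ∂mm, (cmp 1 e he x : Pl → ℝ) z.1 = (x : Pl → ℝ) (e z.1) :=
      Measure.quasiMeasurePreserving_fst.ae h0
    have hb : ∀ᵐ z ∂mm, (cmp 1 e he x : Pl → ℝ) z.2 = (x : Pl → ℝ) (e z.2) :=
      Measure.quasiMeasurePreserving_snd.ae h0
    filter_upwards [ha, hb] with z hz1 hz2
    rw [hz1, hz2, h]
    rfl
  rw [h1]
  have h2 : MeasurePreserving (e.prodCongr e) mm mm := he.prod he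
  exact h2.integral_comp (e.prodCongr e).measurableEmbedding
    (fun w : Pl × Pl => κ' (w.1 - w.2) * ((x : Pl → ℝ) w.1 * |(x : Pl → ℝ) w.2|))

theorem F_cmp (e : Pl ≃ᵐ Pl) (he : MeasurePreserving e (volume : Measure Pl) volume)
    {κ κ' : Pl → ℝ} (h : ∀ u v, κ (u - v) = κ' (e u - e v)) (x : X1) :
    F κ (cmp 1 e he x) = F κ' x := by
  rw [F, F, T_cmp e he h, LinearIsometryEquiv.norm_map]

end Pool.Agent.V1191.ELP
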