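import Mathlib
import Pool.Agent.V1191.ELP.Pair

/-!
# `L_1(ℝ²)` does not have the equivariant dual lifting property
-/

set_option autoImplicit false

namespace Pool.Agent.V1191.ELP

open MeasureTheory Set Filter
open scoped ENNReal NNReal

/-! ### the transformations -/

/-- the shear `(x, y) ↦ (y + x, y)` -/
noncomputable def shU : Pl ≃ᵐ Pl :=
  MeasurableEquiv.prodComm.trans ((MeasurableEquiv.shearAddRight ℝ).trans MeasurableEquiv.prodComm)

theorem shU_apply (v : Pl) : shU v = (v.2 + v.1, v.2) := rfl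

theorem mp_swap : MeasurePreserving (MeasurableEquiv.prodComm : Pl ≃ᵐ Pl) (volume : Measure Pl)
    volume :=
  Measure.measurePreserving_swap (μ := (volume : Measure ℝ)) (ν := (volume : Measure ℝ))

theorem mp_shear : MeasurePreserving (MeasurableEquiv.shearAddRight ℝ : Pl ≃ᵐ Pl)
    (volume : Measure Pl) volume :=
  measurePreserving_prod_add (volume : Measure ℝ) volume

theorem mp_shU : MeasurePreserving shU (volume : Measure Pl) volume :=
  mp_swap.comp (mp_shear.comp mp_swap)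

/-- the translation by `(-1, 0)` -/
noncomputable def tau : Pl ≃ᵐ Pl := MeasurableEquiv.addRight (((-1 : ℝ), (0 : ℝ)) : Pl)

theorem tau_apply (v : Pl) : tau v = v + ((-1 : ℝ), (0 : ℝ)) := rfl

theorem mp_tau : MeasurePreserving tau (volume : Measure Pl) volume :=
  measurePreserving_add_right (volume : Measure Pl) _

theorem ae_line (a b : ℝ) (h : a ≠ 0 ∨ b ≠ 0) : ∀ᵐ v : Pl, a * v.1 + b * v.2 ≠ 0 := by
  let l : Pl →ₗ[ℝ] ℝ := a • LinearMap.fst ℝ ℝ ℝ + b • LinearMap.snd ℝ ℝ ℝ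
  have hl : ∀ v : Pl, l v = a * v.1 + b * v.2 := fun v => rfl
  have h1 : (volume : Measure Pl) (LinearMap.ker l : Set Pl) = 0 := by
    refine Measure.addHaar_submodule _ _ ?_
    intro htop
    have h2 : ∀ v, l v = 0 := fun v => by
      have : v ∈ LinearMap.ker l := by rw [htop]; trivial
      exact this
    have h3 := h2 (1, 0)
    have h4 := h2 (0, 1)
    rw [hl] at h3 h4
    simp only [mul_one, mul_zero, add_zero, zero_add] at h3 h4
    rcases h with h | h
    · exact h h3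
    · exact h h4
  rw [ae_iff]
  have h5 : {v : Pl | ¬ (a * v.1 + b * v.2 ≠ 0)} = (LinearMap.ker l : Set Pl) := by
    ext v
    simp only [ne_eq, not_not, mem_ofPred_eq, SetLike.mem_coe, LinearMap.mem_ker, hl]
  rw [h5, h1]

/-! ### the sets -/

/-- the unit square -/
def Q0 : Set Pl := {v | 0 ≤ v.1 ∧ v.1 < 1 ∧ 0 ≤ v.2 ∧ v.2 < 1}

/-- the part of the sheared square in the square -/
def E0 : Set Pl := {v | 0 ≤ v.2 ∧ v.2 < 1 ∧ 0 ≤ v.1 ∧ v.1 < 1 - v.2}

/-- the part of the sheared square outside the square -/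
def D0 : Set Pl := {v | 0 ≤ v.2 ∧ v.2 < 1 ∧ -v.2 ≤ v.1 ∧ v.1 < 0}

theorem meas_Q0 : MeasurableSet Q0 := by
  unfold Q0
  measurability

theorem meas_E0 : MeasurableSet E0 := by
  unfold E0
  refine (measurableSet_le measurable_const measurable_snd).inter
    ((measurableSet_lt measurable_snd measurable_const).inter
    ((measurableSet_le measurable_const measurable_fst).inter
    (measurableSet_lt measurable_fst (measurable_const.sub measurable_snd))))

theorem meas_D0 : MeasurableSet D0 := by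
  unfold D0
  refine (measurableSet_le measurable_const measurable_snd).inter
    ((measurableSet_lt measurable_snd measurable_const).inter
    ((measurableSet_le measurable_snd.neg measurable_fst).inter
    (measurableSet_lt measurable_fst measurable_const)))

/-- indicator functions -/
noncomputable def ind (S : Set Pl) : Pl → ℝ := S.indicator fun _ => 1

theorem memLp_ind {S : Set Pl} (hS : MeasurableSet S)
    (h : S ⊆ Icc (((-1 : ℝ), (-1 : ℝ)) : Pl) ((1 : ℝ), (1 : ℝ))) :
    MemLp (ind S) 1 (volume : Measure Pl) := by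
  refine memLp_indicator_const 1 hS (1 : ℝ) (Or.inr ?_)
  exact ((measure_mono h).trans_lt isCompact_Icc.measure_lt_top).ne

theorem mQ : MemLp (ind Q0) 1 (volume : Measure Pl) := by
  refine memLp_ind meas_Q0 ?_
  rintro ⟨x, y⟩ ⟨h1, h2, h3, h4⟩
  simp only at h1 h2 h3 h4
  refine ⟨⟨?_, ?_⟩, ⟨?_, ?_⟩⟩ <;> simp only <;> linarith

theorem mE : MemLp (ind E0) 1 (volume : Measure Pl) := by
  refine memLp_ind meas_E0 ?_
  rintro ⟨x, y⟩ ⟨h1, h2, h3, h4⟩
  simp only at h1 h2 h3 h4
  refine ⟨⟨?_, ?_⟩, ⟨?_, ?_⟩⟩ <;> simp only <;> linarith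

theorem mD : MemLp (ind D0) 1 (volume : Measure Pl) := by
  refine memLp_ind meas_D0 ?_
  rintro ⟨x, y⟩ ⟨h1, h2, h3, h4⟩
  simp only at h1 h2 h3 h4
  refine ⟨⟨?_, ?_⟩, ⟨?_, ?_⟩⟩ <;> simp only <;> linarith

/-- the indicator function of the unit square as an element of `L_1` -/
noncomputable def xQ : X1 := mQ.toLp _

/-- see `E0` -/
noncomputable def xE : X1 := mE.toLp _

/-- see `D0` -/
noncomputable def xD : X1 := mD.toLp _

theorem ind_shU (v : Pl) : ind Q0 (shU v) = ind E0 v + ind D0 v := by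
  obtain ⟨x, y⟩ := v
  rw [shU_apply]
  simp only [ind, indicator_apply, Q0, E0, D0, mem_ofPred_eq]
  split_ifs with h1 h2 h3 h3 h2 h3 h3 <;>
    first
      | (norm_num; done)
      | (exfalso; grind)

theorem ind_tau (v : Pl) : ind Q0 v = ind E0 v + ind D0 (tau v) := by
  obtain ⟨x, y⟩ := v
  rw [tau_apply]
  simp only [ind, indicator_apply, Q0, E0, D0, mem_ofPred_eq, Prod.mk_add_mk]
  split_ifs with h1 h2 h3 h3 h2 h3 h3 <;>
    first
      | (norm_num; done)
      | (exfalso; grind)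

theorem cmp_shU : cmp 1 shU mp_shU xQ = xE + xD := by
  rw [xQ, cmp_toLp, xE, xD, ← MemLp.toLp_add]
  refine MemLp.toLp_congr _ _ (Eventually.of_forall fun v => ?_)
  exact ind_shU v

theorem xQ_eq : xQ = xE + cmp 1 tau mp_tau xD := by
  rw [xD, cmp_toLp, xE, xQ, ← MemLp.toLp_add]
  refine MemLp.toLp_congr _ _ (Eventually.of_forall fun v => ?_)
  exact ind_tau v

theorem cmp_swap : cmp 1 MeasurableEquiv.prodComm mp_swap xQ = xQ := by
  rw [xQ, cmp_toLp]
  refine MemLp.toLp_congr _ _ (Eventually.of_forall fun v => ?_)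
  obtain ⟨x, y⟩ := v
  show ind Q0 (y, x) = ind Q0 (x, y)
  simp only [ind, indicator_apply, Q0, mem_ofPred_eq]
  congr 1
  exact propext ⟨fun h => ⟨h.2.2.1, h.2.2.2, h.1, h.2.1⟩, fun h => ⟨h.2.2.1, h.2.2.2, h.1, h.2.1⟩⟩

theorem ker_ind {S : Set Pl} (hS : MeasurableSet S) : Ker (ind S) := by
  refine ⟨measurable_const.indicator hS, fun v => ?_⟩
  by_cases h : v ∈ S
  · rw [ind, indicator_of_mem h, abs_one]
  · rw [ind, indicator_of_notMem h, abs_zero]
    exact zero_le_one

theorem ker_one : Ker fun _ => (1 : ℝ) := ⟨measurable_const, fun _ => by simp⟩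

section main

variable {P : Lip0 X1 →ₗ[ℝ] (X1 →L[ℝ] ℝ)}

/-- the functional which corresponds to a kernel -/
noncomputable def Psi (P : Lip0 X1 →ₗ[ℝ] (X1 →L[ℝ] ℝ)) {κ : Pl → ℝ} (hκ : Ker κ) : X1 →L[ℝ] ℝ :=
  P ⟨F κ, F_mem hκ⟩

theorem Psi_cmp (hP : IsEquivariantProjection Set.univ P) (e : Pl ≃ᵐ Pl)
    (he : MeasurePreserving e (volume : Measure Pl) volume)
    {κ κ' : Pl → ℝ} (hκ : Ker κ) (hκ' : Ker κ') (h : ∀ u v, κ (u - v) = κ' (e u - e v)) (x : X1) :
    Psi P hκ (cmp 1 e he x) = Psi P hκ' x :=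
  (hP.equivariant (cmp 1 e he) (mem_univ _) ⟨F κ, F_mem hκ⟩ ⟨F κ', F_mem hκ'⟩
    (fun x => (F_cmp e he h x).symm) x).symm

theorem Psi_add {κ κ₁ κ₂ : Pl → ℝ} (hκ : Ker κ) (h₁ : Ker κ₁) (h₂ : Ker κ₂)
    (h : ∀ᵐ v : Pl, κ v = κ₁ v + κ₂ v) (x : X1) : Psi P hκ x = Psi P h₁ x + Psi P h₂ x := by
  have : (⟨F κ, F_mem hκ⟩ : Lip0 X1) = ⟨F κ₁, F_mem h₁⟩ + ⟨F κ₂, F_mem h₂⟩ := by
    ext y
    show F κ y = F κ₁ y + F κ₂ y
    rw [F, F, F, T_add h₁ h₂ h, mul_add]
  rw [Psi, this, map_add]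
  rfl

theorem Psi_tau (hP : IsEquivariantProjection Set.univ P) {κ : Pl → ℝ} (hκ : Ker κ) (x : X1) :
    Psi P hκ (cmp 1 tau mp_tau x) = Psi P hκ x :=
  Psi_cmp hP tau mp_tau hκ hκ (fun u v => by rw [tau_apply, tau_apply, add_sub_add_right_eq_sub]) x

theorem Psi_shU (hP : IsEquivariantProjection Set.univ P) {κ : Pl → ℝ} (hκ : Ker κ) :
    Psi P hκ (cmp 1 shU mp_shU xQ) = Psi P hκ xQ := by
  rw [cmp_shU]
  conv_rhs => rw [xQ_eq]
  rw [map_add, map_add, Psi_tau hP hκ]

theorem W_shU (hP : IsEquivariantProjection Set.univ P) {κ κ' : Pl → ℝ} (hκ : Ker κ)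
    (hκ' : Ker κ') (h : ∀ v : Pl, κ v = κ' (v.2 + v.1, v.2)) :
    Psi P hκ' xQ = Psi P hκ xQ := by
  rw [← Psi_shU hP hκ]
  refine (Psi_cmp hP shU mp_shU hκ hκ' (fun u v => ?_) xQ).symm
  rw [h, shU_apply, shU_apply]
  congr 1
  ext
  · simp only [Prod.fst_sub, Prod.snd_sub]
    ring
  · simp only [Prod.snd_sub]

theorem W_swap (hP : IsEquivariantProjection Set.univ P) {κ κ' : Pl → ℝ} (hκ : Ker κ)
    (hκ' : Ker κ') (h : ∀ v : Pl, κ v = κ' (v.2, v.1)) :
    Psi P hκ' xQ = Psi P hκ xQ := by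
  conv_rhs => rw [← cmp_swap]
  refine (Psi_cmp hP MeasurableEquiv.prodComm mp_swap hκ hκ' (fun u v => ?_) xQ).symm
  rw [h]
  rfl

/-- Quadratic sectors. -/
theorem meas_pos {f : Pl → ℝ} (hf : Measurable f) : MeasurableSet {v | 0 < f v} :=
  measurableSet_lt measurable_const hf

theorem meas_neg {f : Pl → ℝ} (hf : Measurable f) : MeasurableSet {v | f v < 0} :=
  measurableSet_lt hf measurable_const

theorem W_S1 (hP : IsEquivariantProjection Set.univ P)
    (h1 : Ker (ind {v : Pl | 0 < v.1 * v.2})) : Psi P h1 xQ = 0 := by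
  have h2 : Ker (ind {v : Pl | 0 < (v.1 - v.2) * v.2}) := ker_ind (meas_pos (by fun_prop))
  have h3 : Ker (ind {v : Pl | 0 < (v.2 - v.1) * v.1}) := ker_ind (meas_pos (by fun_prop))
  have e1 : Psi P h2 xQ = Psi P h1 xQ := W_shU hP h1 h2 (fun v => by
    simp only [ind, indicator_apply, mem_ofPred_eq, add_sub_cancel_left])
  have e2 : Psi P h2 xQ = Psi P h3 xQ := W_swap hP h3 h2 (fun v => by
    simp only [ind, indicator_apply, mem_ofPred_eq])
  have e3 : Psi P h1 xQ = Psi P h2 xQ + Psi P h3 xQ := by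
    refine Psi_add h1 h2 h3 ?_ xQ
    filter_upwards [ae_line 1 (-1) (Or.inl one_ne_zero)] with v hv
    obtain ⟨x, y⟩ := v
    simp only [ind, indicator_apply, mem_ofPred_eq]
    simp only [one_mul, neg_mul] at hv
    have hv' : 0 < (x - y) ^ 2 := by
      have : x - y ≠ 0 := by
        intro h
        apply hv
        linarith
      positivity
    by_cases c1 : 0 < (x - y) * y
    · have c2 : ¬ 0 < (y - x) * x := by
        intro c2
        nlinarith
      have c3 : 0 < x * y := by nlinarith [sq_nonneg y]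
      rw [if_pos c1, if_neg c2, if_pos c3, add_zero]
    · by_cases c2 : 0 < (y - x) * x
      · have c3 : 0 < x * y := by nlinarith [sq_nonneg x]
        rw [if_neg c1, if_pos c2, if_pos c3, zero_add]
      · have c3 : ¬ 0 < x * y := by
          intro c3
          have c4 : 0 < (x - y) ^ 2 * (x * y) := mul_pos hv' c3
          have c5 : 0 ≤ ((x - y) * y) * ((y - x) * x) :=
            mul_nonneg_of_nonpos_of_nonpos (not_lt.1 c1) (not_lt.1 c2)
          have c6 : ((x - y) * y) * ((y - x) * x) = -((x - y) ^ 2 * (x * y)) := by ring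
          linarith
        rw [if_neg c1, if_neg c2, if_neg c3, add_zero]
  linarith

theorem W_S2 (hP : IsEquivariantProjection Set.univ P)
    (h1 : Ker (ind {v : Pl | v.1 * v.2 < 0})) : Psi P h1 xQ = 0 := by
  have h2 : Ker (ind {v : Pl | (v.2 + v.1) * v.2 < 0}) := ker_ind (meas_neg (by fun_prop))
  have h3 : Ker (ind {v : Pl | (v.1 + v.2) * v.1 < 0}) := ker_ind (meas_neg (by fun_prop))
  have e1 : Psi P h1 xQ = Psi P h2 xQ := W_shU hP h2 h1 (fun v => by
    simp only [ind, indicator_apply, mem_ofPred_eq])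
  have e2 : Psi P h2 xQ = Psi P h3 xQ := W_swap hP h3 h2 (fun v => by
    simp only [ind, indicator_apply, mem_ofPred_eq])
  have e3 : Psi P h1 xQ = Psi P h2 xQ + Psi P h3 xQ := by
    refine Psi_add h1 h2 h3 ?_ xQ
    filter_upwards [ae_line 1 1 (Or.inl one_ne_zero)] with v hv
    obtain ⟨x, y⟩ := v
    simp only [ind, indicator_apply, mem_ofPred_eq]
    simp only [one_mul] at hv
    have hv' : 0 < (x + y) ^ 2 := by positivity
    by_cases c1 : (y + x) * y < 0
    · have c2 : ¬ (x + y) * x < 0 := by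
        intro c2
        nlinarith
      have c3 : x * y < 0 := by nlinarith [sq_nonneg y]
      rw [if_pos c1, if_neg c2, if_pos c3, add_zero]
    · by_cases c2 : (x + y) * x < 0
      · have c3 : x * y < 0 := by nlinarith [sq_nonneg x]
        rw [if_neg c1, if_pos c2, if_pos c3, zero_add]
      · have c3 : ¬ x * y < 0 := by
          intro c3
          have c4 : (x + y) ^ 2 * (x * y) < 0 := mul_neg_of_pos_of_neg hv' c3
          have c5 : 0 ≤ ((y + x) * y) * ((x + y) * x) :=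
            mul_nonneg (not_lt.1 c1) (not_lt.1 c2)
          have c6 : ((y + x) * y) * ((x + y) * x) = (x + y) ^ 2 * (x * y) := by ring
          linarith
        rw [if_neg c1, if_neg c2, if_neg c3, add_zero]
  linarith

theorem W_one (hP : IsEquivariantProjection Set.univ P) : Psi P ker_one xQ = 0 := by
  have h1 : Ker (ind {v : Pl | 0 < v.1 * v.2}) := ker_ind (meas_pos (by fun_prop))
  have h2 : Ker (ind {v : Pl | v.1 * v.2 < 0}) := ker_ind (meas_neg (by fun_prop))
  have e3 : Psi P ker_one xQ = Psi P h1 xQ + Psi P h2 xQ := by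
    refine Psi_add ker_one h1 h2 ?_ xQ
    filter_upwards [ae_line 1 0 (Or.inl one_ne_zero), ae_line 0 1 (Or.inr one_ne_zero)]
      with v hv hw
    obtain ⟨x, y⟩ := v
    simp only [ind, indicator_apply, mem_ofPred_eq]
    simp only [one_mul, zero_mul, add_zero, zero_add] at hv hw
    have h5 : x * y ≠ 0 := mul_ne_zero hv hw
    rcases lt_or_gt_of_ne h5 with h | h
    · rw [if_neg (not_lt.2 h.le), if_pos h, zero_add]
    · rw [if_pos h, if_neg (not_lt.2 h.le), add_zero]
  rw [e3, W_S1 hP h1, W_S2 hP h2, add_zero]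

theorem int_xQ : ∫ a, (xQ : Pl → ℝ) a = 1 := by
  rw [xQ, integral_congr_ae mQ.coeFn_toLp]
  have h : Q0 = Ico (0 : ℝ) 1 ×ˢ Ico (0 : ℝ) 1 := by
    ext ⟨x, y⟩
    simp only [Q0, mem_ofPred_eq, mem_prod, mem_Ico]
    tauto
  rw [show (∫ a : Pl, ind Q0 a) = ∫ a : Pl, Q0.indicator (fun _ => (1 : ℝ)) a from rfl,
    integral_indicator_const _ meas_Q0, h]
  rw [Measure.real, Measure.volume_eq_prod, Measure.prod_prod]
  simp

theorem W_one' (hP : IsEquivariantProjection Set.univ P) : Psi P ker_one xQ = 1 := by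
  have h := hP.proj (L1.integralCLM (E := ℝ) (μ := (volume : Measure Pl)))
    ⟨F fun _ => 1, F_mem ker_one⟩ (fun x => F_one x)
  rw [Psi, h, ← F_one, F, T_one, int_xQ, one_mul]
  have h1 : ‖xQ‖ = 1 := by
    rw [norm_eq, ← int_xQ]
    refine integral_congr_ae ?_
    filter_upwards [mQ.coeFn_toLp] with a ha
    rw [xQ, ha]
    refine abs_of_nonneg ?_
    exact indicator_nonneg (fun _ _ => zero_le_one) a
  rw [h1, inv_one, one_mul]

end main

/-- `L_1(ℝ²)` does not have the equivariant dual lifting property. -/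
theorem L1_plane_not : ¬ HasEquivariantDualLifting X1 := by
  rintro ⟨P, hP⟩
  have h1 := W_one hP
  have h2 := W_one' hP
  linarith

end Pool.Agent.V1191.ELP
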