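import Mathlib
import Pool.Agent.V1191.ELP.NoL1
import Pool.Agent.V11300.ELP.Dens
import Pool.Agent.H359R3.MX10

/-!
# `L_p[0,1]` is isometric to `L_p` of every non-atomic σ-finite standard measure space
-/

set_option autoImplicit false

namespace Pool.Agent.V1191.ELP

open MeasureTheory Set Filter ProbabilityTheory
open scoped ENNReal NNReal

/-- Lebesgue measure on `[0,1]` -/
noncomputable abbrev lam : Measure ℝ := volume.restrict (Set.Icc (0 : ℝ) 1)

theorem iso_of {Z : Type} [MeasurableSpace Z] [StandardBorelSpace Z] (μ : Measure Z)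
    [SigmaFinite μ] (hnull : ∀ z, μ {z} = 0) (w : Z → ℝ) (hw : Measurable w) (h0 : ∀ z, 0 < w z)
    (h1 : ∫⁻ z, ENNReal.ofReal (w z) ∂μ = 1) (p : ℝ≥0∞) [Fact (1 ≤ p)] (hp : p ≠ ∞) :
    Nonempty (Lp ℝ p lam ≃ₗᵢ[ℝ] Lp ℝ p μ) := by
  obtain ⟨d⟩ := Pool.Agent.V11300.ELP.dens μ w hw h0 p hp
  have hprob : IsProbabilityMeasure (μ.withDensity fun z => ENNReal.ofReal (w z)) :=
    ⟨by rw [withDensity_apply _ MeasurableSet.univ, Measure.restrict_univ, h1]⟩
  have hns : NullSingletonClass (μ.withDensity fun z => ENNReal.ofReal (w z)) :=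
    ⟨fun z => withDensity_absolutelyContinuous _ _ (hnull z)⟩
  obtain ⟨e, he⟩ := Pool.H359R3.MX.exists_iso (μ.withDensity fun z => ENNReal.ofReal (w z))
  exact ⟨(cmp p e he).trans d⟩

theorem iso_plane (p : ℝ≥0∞) [Fact (1 ≤ p)] (hp : p ≠ ∞) :
    Nonempty (Lp ℝ p lam ≃ₗᵢ[ℝ] Lp ℝ p (volume : Measure (ℝ × ℝ))) := by
  have hv : (1 : ℝ≥0) ≠ 0 := one_ne_zero
  refine iso_of (volume : Measure (ℝ × ℝ)) (fun z => measure_singleton z)
    (fun z => gaussianPDFReal 0 1 z.1 * gaussianPDFReal 0 1 z.2) ?_ ?_ ?_ p hp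
  · exact ((measurable_gaussianPDFReal 0 1).comp measurable_fst).mul
      ((measurable_gaussianPDFReal 0 1).comp measurable_snd)
  · exact fun z => mul_pos (gaussianPDFReal_pos 0 1 _ hv) (gaussianPDFReal_pos 0 1 _ hv)
  · have h : ∀ z : ℝ × ℝ, ENNReal.ofReal (gaussianPDFReal 0 1 z.1 * gaussianPDFReal 0 1 z.2)
        = ENNReal.ofReal (gaussianPDFReal 0 1 z.1) * ENNReal.ofReal (gaussianPDFReal 0 1 z.2) :=
      fun z => ENNReal.ofReal_mul (gaussianPDFReal_nonneg 0 1 _)
    simp only [h]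
    rw [Measure.volume_eq_prod,
      lintegral_prod_mul (measurable_gaussianPDFReal 0 1).ennreal_ofReal.aemeasurable
        (measurable_gaussianPDFReal 0 1).ennreal_ofReal.aemeasurable,
      lintegral_gaussianPDFReal_eq_one 0 hv, mul_one]

theorem iso_count (p : ℝ≥0∞) [Fact (1 ≤ p)] (hp : p ≠ ∞) :
    Nonempty (Lp ℝ p lam ≃ₗᵢ[ℝ] Lp ℝ p ((Measure.count : Measure ℕ).prod lam)) := by
  refine iso_of ((Measure.count : Measure ℕ).prod lam) (fun z => ?_)
    (fun z => (1 / 2 : ℝ) ^ (z.1 + 1)) ?_ (fun z => by positivity) ?_ p hp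
  · obtain ⟨n, y⟩ := z
    have h5 : lam {y} = 0 := measure_singleton y
    rw [← singleton_prod_singleton, Measure.prod_prod, h5, mul_zero]
  · exact (measurable_from_nat (f := fun n : ℕ => (1 / 2 : ℝ) ^ (n + 1))).comp measurable_fst
  · have h := lintegral_prod_mul (μ := (Measure.count : Measure ℕ)) (ν := lam)
      (f := fun n : ℕ => ENNReal.ofReal ((1 / 2 : ℝ) ^ (n + 1))) (g := fun _ : ℝ => 1)
      (measurable_from_nat).aemeasurable measurable_const.aemeasurable
    simp only [mul_one] at h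
    rw [h, lintegral_one]
    have h2 : lam univ = 1 := by
      rw [Measure.restrict_apply_univ, Real.volume_Icc]
      simp
    rw [h2, mul_one, lintegral_count]
    have h3 : HasSum (fun n : ℕ => (1 / 2 : ℝ) ^ (n + 1)) 1 := by
      have h6 := (hasSum_geometric_two).mul_left (1 / 2 : ℝ)
      have h7 : (fun n : ℕ => (1 / 2 : ℝ) ^ (n + 1)) = fun i => 1 / 2 * (1 / 2) ^ i := by
        ext n
        rw [pow_succ, mul_comm]
      have h8 : (1 / 2 * 2 : ℝ) = 1 := by norm_num
      rw [h8] at h6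
      rw [h7]
      exact h6
    rw [← ENNReal.ofReal_tsum_of_nonneg (fun n => by positivity) h3.summable, h3.tsum_eq,
      ENNReal.ofReal_one]

/-- `L_1[0,1]` does not have the equivariant dual lifting property. -/
theorem L1_not : ¬ HasEquivariantDualLifting (Lp ℝ 1 lam) := by
  intro h
  obtain ⟨e⟩ := iso_plane 1 ENNReal.one_ne_top
  exact L1_plane_not (h.of_iso e)

end Pool.Agent.V1191.ELP
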