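import Mathlib
import Pool.Agent.V1191.ELP.Defs

/-!
# Permutation symmetric decompositions: no equivariant projection
-/

set_option autoImplicit false

namespace Pool.Agent.V1191.ELP

open scoped NNReal
open Set Filter Topology

/-- A finitely additive real function on the sets of nonzero natural numbers that is invariant under
the permutations fixing `0` vanishes on the set of all nonzero numbers. -/
theorem paradox (m : Set ℕ → ℝ)
    (hadd : ∀ A B : Set ℕ, 0 ∉ A → 0 ∉ B → Disjoint A B → m (A ∪ B) = m A + m B)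
    (hinv : ∀ (σ : Equiv.Perm ℕ) (A : Set ℕ), σ 0 = 0 → 0 ∉ A → m (σ '' A) = m A) :
    m {n | n ≠ 0} = 0 := by
  -- the residue classes `{n ≠ 0 | n ≡ i mod 3}`
  let A : ℕ → Set ℕ := fun i => {n | n ≠ 0 ∧ n % 3 = i}
  -- two sets, infinite with infinite complement, are equivalent
  have key : ∀ U V : Set ℕ, 0 ∉ U → 0 ∉ V → U.Infinite → V.Infinite →
      ({n | n ≠ 0} \ U).Infinite → ({n | n ≠ 0} \ V).Infinite → m U = m V := by
    intro U V hU hV iU iV iU' iV'
    have : Infinite U := iU.to_subtype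
    have : Infinite V := iV.to_subtype
    have : Infinite ({n | n ≠ 0} \ U : Set ℕ) := iU'.to_subtype
    have : Infinite ({n | n ≠ 0} \ V : Set ℕ) := iV'.to_subtype
    classical
    obtain ⟨e1⟩ : Nonempty (U ≃ V) := nonempty_equiv_of_countable
    obtain ⟨e2⟩ : Nonempty (({n | n ≠ 0} \ U : Set ℕ) ≃ ({n | n ≠ 0} \ V : Set ℕ)) :=
      nonempty_equiv_of_countable
    let f : ℕ → ℕ := fun n => if h : n ∈ U then e1 ⟨n, h⟩ else
      if h' : n ∈ {n | n ≠ 0} \ U then e2 ⟨n, h'⟩ else 0
    let f' : ℕ → ℕ := fun n => if h : n ∈ V then e1.symm ⟨n, h⟩ else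
      if h' : n ∈ {n | n ≠ 0} \ V then e2.symm ⟨n, h'⟩ else 0
    have e1V : ∀ x : U, (e1 x : ℕ) ∈ V := fun x => (e1 x).2
    have hff' : ∀ n, f' (f n) = n := by
      intro n
      by_cases h : n ∈ U
      · have h1 : f n = e1 ⟨n, h⟩ := by simp [f, h]
        rw [h1]
        have h2 : (e1 ⟨n, h⟩ : ℕ) ∈ V := (e1 ⟨n, h⟩).2
        simp only [f', h2, dif_pos]
        simp
      · by_cases h' : n ∈ {n | n ≠ 0} \ U
        · have h1 : f n = e2 ⟨n, h'⟩ := by simp only [f, h, dif_neg, not_false_iff, h', dif_pos]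
          rw [h1]
          have h2 := (e2 ⟨n, h'⟩).2
          have h3 : (e2 ⟨n, h'⟩ : ℕ) ∉ V := h2.2
          simp only [f', h3, dif_neg, not_false_iff, h2, dif_pos]
          simp
        · have hn : n = 0 := by
            by_contra hn
            exact h' ⟨hn, h⟩
          subst hn
          have h1 : f 0 = 0 := by simp only [f, h, dif_neg, not_false_iff, h']
          have h3 : (0 : ℕ) ∉ ({n | n ≠ 0} \ V : Set ℕ) := fun h => h.1 rfl
          rw [h1]
          simp only [f', hV, dif_neg, not_false_iff, h3]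
    have hf'f : ∀ n, f (f' n) = n := by
      intro n
      by_cases h : n ∈ V
      · have h1 : f' n = e1.symm ⟨n, h⟩ := by simp [f', h]
        rw [h1]
        have h2 : (e1.symm ⟨n, h⟩ : ℕ) ∈ U := (e1.symm ⟨n, h⟩).2
        simp only [f, h2, dif_pos]
        simp
      · by_cases h' : n ∈ {n | n ≠ 0} \ V
        · have h1 : f' n = e2.symm ⟨n, h'⟩ := by simp only [f', h, dif_neg, not_false_iff, h', dif_pos]
          rw [h1]
          have h2 := (e2.symm ⟨n, h'⟩).2
          have h3 : (e2.symm ⟨n, h'⟩ : ℕ) ∉ U := h2.2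
          simp only [f, h3, dif_neg, not_false_iff, h2, dif_pos]
          simp
        · have hn : n = 0 := by
            by_contra hn
            exact h' ⟨hn, h⟩
          subst hn
          have h1 : f' 0 = 0 := by simp only [f', h, dif_neg, not_false_iff, h']
          have h3 : (0 : ℕ) ∉ ({n | n ≠ 0} \ U : Set ℕ) := fun h => h.1 rfl
          rw [h1]
          simp only [f, hU, dif_neg, not_false_iff, h3]
    let σ : Equiv.Perm ℕ := ⟨f, f', hff', hf'f⟩
    have h0 : σ 0 = 0 := by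
      show f 0 = 0
      have h3 : (0 : ℕ) ∉ ({n | n ≠ 0} \ U : Set ℕ) := fun h => h.1 rfl
      simp only [f, hU, dif_neg, not_false_iff, h3]
    have hσ : σ '' U = V := by
      ext n
      constructor
      · rintro ⟨k, hk, rfl⟩
        show f k ∈ V
        have : f k = e1 ⟨k, hk⟩ := by simp [f, hk]
        rw [this]
        exact (e1 ⟨k, hk⟩).2
      · intro hn
        refine ⟨f' n, ?_, hf'f n⟩
        have : f' n = e1.symm ⟨n, hn⟩ := by simp [f', hn]
        rw [this]
        exact (e1.symm ⟨n, hn⟩).2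
    rw [← hσ]
    exact (hinv σ U h0 hU).symm
  have hinf : ∀ (S : Set ℕ) (a : ℕ), (∀ k : ℕ, 3 * (k + 1) + a ∈ S) → S.Infinite := by
    intro S a h
    exact infinite_of_injective_forall_mem (f := fun k : ℕ => 3 * (k + 1) + a)
      (fun i j hij => by simpa using hij) h
  have i0 : (A 0).Infinite := hinf _ 0 fun k => ⟨by omega, by omega⟩
  have i1 : (A 1).Infinite := hinf _ 1 fun k => ⟨by omega, by omega⟩
  have i2 : (A 2).Infinite := hinf _ 2 fun k => ⟨by omega, by omega⟩
  have i01 : (A 0 ∪ A 1).Infinite := i0.mono subset_union_left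
  have c0 : ({n | n ≠ 0} \ A 0).Infinite := hinf _ 1 fun k => ⟨by simp, fun h => by
    have := h.2; omega⟩
  have c1 : ({n | n ≠ 0} \ A 1).Infinite := hinf _ 0 fun k => ⟨by simp, fun h => by
    have := h.2; omega⟩
  have c2 : ({n | n ≠ 0} \ A 2).Infinite := hinf _ 0 fun k => ⟨by simp, fun h => by
    have := h.2; omega⟩
  have c01 : ({n | n ≠ 0} \ (A 0 ∪ A 1)).Infinite := hinf _ 2 fun k => ⟨by simp, fun h => by
    rcases h with h | h <;> (have := h.2; omega)⟩
  have n0 : ∀ i, 0 ∉ A i := fun i h => h.1 rfl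
  have n01 : 0 ∉ A 0 ∪ A 1 := by
    rintro (h | h) <;> exact h.1 rfl
  have d01 : Disjoint (A 0) (A 1) := by
    rw [Set.disjoint_left]
    rintro n ⟨_, h⟩ ⟨_, h'⟩
    omega
  have d2 : Disjoint (A 0 ∪ A 1) (A 2) := by
    rw [Set.disjoint_left]
    rintro n (⟨_, h⟩ | ⟨_, h⟩) ⟨_, h'⟩ <;> omega
  have e1 := key _ _ (n0 0) (n0 1) i0 i1 c0 c1
  have e2 := key _ _ (n0 1) (n0 2) i1 i2 c1 c2
  have e3 := key _ _ n01 (n0 0) i01 i0 c01 c0
  have a1 := hadd _ _ (n0 0) (n0 1) d01
  have a2 := hadd _ _ n01 (n0 2) d2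
  have hu : A 0 ∪ A 1 ∪ A 2 = {n | n ≠ 0} := by
    ext n
    simp only [A, mem_union, mem_ofPred_eq]
    constructor
    · rintro ((h | h) | h) <;> exact h.1
    · intro h
      have : n % 3 = 0 ∨ n % 3 = 1 ∨ n % 3 = 2 := by omega
      rcases this with h' | h' | h'
      · exact Or.inl (Or.inl ⟨h, h'⟩)
      · exact Or.inl (Or.inr ⟨h, h'⟩)
      · exact Or.inr ⟨h, h'⟩
  rw [hu] at a2
  linarith

end Pool.Agent.V1191.ELP
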