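import Mathlib
import Pool.Agent.V1191.ELP.Perm

/-!
# Spaces with a permutation symmetric `ℓ_p` decomposition, `p > 1`: no equivariant projection
-/

set_option autoImplicit false

namespace Pool.Agent.V1191.ELP

open scoped NNReal
open Set Filter Topology

/-- A permutation symmetric `ℓ_q` decomposition of a normed space. -/
structure Dec (X : Type*) [NormedAddCommGroup X] [NormedSpace ℝ X] (q : ℝ) where
  R : Set ℕ → X → ℝ
  φ : ℕ → X →L[ℝ] ℝ
  e : ℕ → X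
  g : Equiv.Perm ℕ → (X ≃ₗᵢ[ℝ] X)
  R0 : ∀ A x, 0 ≤ R A x
  RL : ∀ A x y, |R A x - R A y| ≤ ‖x - y‖
  Radd : ∀ A B x, Disjoint A B → R (A ∪ B) x ^ q = R A x ^ q + R B x ^ q
  Runiv : ∀ x, R univ x = ‖x‖
  hφ : ∀ n x, |φ n x| ≤ R {n} x
  he : ∀ N : ℕ, ‖∑ k ∈ Finset.range N, e k‖ ≤ (N : ℝ) ^ (1 / q)
  hφe : φ 0 (e 0) = 1
  hgR : ∀ σ A x, R A (g σ x) = R (σ '' A) x
  hgφ : ∀ σ n x, φ n (g σ x) = φ (σ n) x
  hge : ∀ σ n, g σ (e (σ n)) = e n

theorem pow_sub_le {q a b : ℝ} (hq : 1 ≤ q) (ha : 0 ≤ a) (hb : 0 < b) (hab : a ≤ b) :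
    b ^ q - a ^ q ≤ q * b ^ (q - 1) * (b - a) := by
  have h1 : -1 ≤ a / b - 1 := by
    have : 0 ≤ a / b := by positivity
    linarith
  have h2 := one_add_mul_self_le_rpow_one_add h1 hq
  have h3 : 1 + (a / b - 1) = a / b := by ring
  rw [h3, Real.div_rpow ha hb.le] at h2
  have hbq : 0 < b ^ q := Real.rpow_pos_of_pos hb q
  have h4 : b ^ (q - 1) * b = b ^ q := by
    rw [← Real.rpow_add_one hb.ne']
    ring_nf
  have h5 : (1 + q * (a / b - 1)) * b ^ q ≤ a ^ q := by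
    have := mul_le_mul_of_nonneg_right h2 hbq.le
    rwa [div_mul_cancel₀ _ hbq.ne'] at this
  have h6 : (1 + q * (a / b - 1)) * b ^ q = b ^ q - q * b ^ (q - 1) * (b - a) := by
    rw [← h4]
    field_simp
    ring
  linarith

theorem abs_pow_sub_le {q a b : ℝ} (hq : 1 ≤ q) (ha : 0 ≤ a) (hb : 0 ≤ b) :
    max a b * |a ^ q - b ^ q| ≤ q * |a - b| * max a b ^ q := by
  wlog hab : a ≤ b generalizing a b
  · have := this hb ha (le_of_not_ge hab)
    rw [max_comm, abs_sub_comm, abs_sub_comm a b]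
    exact this
  rw [max_eq_right hab]
  rcases hb.eq_or_lt with h | h
  · subst h
    have : a = 0 := le_antisymm hab ha
    subst this
    simp
  · rw [abs_sub_comm, abs_of_nonneg (sub_nonneg.2 (Real.rpow_le_rpow ha hab (by linarith))),
      abs_sub_comm, abs_of_nonneg (sub_nonneg.2 hab)]
    have h1 := mul_le_mul_of_nonneg_left (pow_sub_le hq ha h hab) h.le
    refine h1.trans (le_of_eq ?_)
    have h4 : b ^ q = b * b ^ (q - 1) := by
      rw [mul_comm, ← Real.rpow_add_one h.ne']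
      ring_nf
    rw [h4]
    ring

theorem abs_pow_sub_le' {q a b : ℝ} (hq : 1 ≤ q) (ha : 0 ≤ a) (hb : 0 ≤ b) (ha1 : a ≤ 1)
    (hb1 : b ≤ 1) : |a ^ q - b ^ q| ≤ q * |a - b| := by
  wlog hab : a ≤ b generalizing a b
  · have := this hb ha hb1 ha1 (le_of_not_ge hab)
    rw [abs_sub_comm, abs_sub_comm a b]
    exact this
  rcases hb.eq_or_lt with h | h
  · subst h
    have : a = 0 := le_antisymm hab ha
    subst this
    simp
  · rw [abs_sub_comm, abs_of_nonneg (sub_nonneg.2 (Real.rpow_le_rpow ha hab (by linarith))),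
      abs_sub_comm, abs_of_nonneg (sub_nonneg.2 hab)]
    refine (pow_sub_le hq ha h hab).trans ?_
    have h1 : b ^ (q - 1) ≤ 1 := Real.rpow_le_one h.le hb1 (by linarith)
    have h2 : 0 ≤ q * (b - a) := mul_nonneg (by linarith) (by linarith)
    nlinarith

namespace Dec

variable {X : Type*} [NormedAddCommGroup X] [NormedSpace ℝ X] {q : ℝ} (D : Dec X q)

include D

theorem Rle (hq : 1 < q) (A : Set ℕ) (x : X) : D.R A x ≤ ‖x‖ := by
  have h := D.Radd A Aᶜ x disjoint_compl_right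
  rw [union_compl_self, D.Runiv] at h
  have h1 : 0 ≤ D.R Aᶜ x ^ q := Real.rpow_nonneg (D.R0 _ _) _
  have h2 : D.R A x ^ q ≤ ‖x‖ ^ q := by linarith
  exact (Real.rpow_le_rpow_iff (D.R0 _ _) (norm_nonneg _) (by linarith)).1 h2

/-- the ratio -/
noncomputable def r (A : Set ℕ) (x : X) : ℝ := D.R A x / ‖x‖

theorem r0 (A : Set ℕ) (x : X) : 0 ≤ D.r A x := div_nonneg (D.R0 _ _) (norm_nonneg _)

theorem r1 (hq : 1 < q) (A : Set ℕ) (x : X) : D.r A x ≤ 1 :=
  div_le_one_of_le₀ (D.Rle hq A x) (norm_nonneg _)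

theorem rsub (hq : 1 < q) (A : Set ℕ) {x y : X} (hx : x ≠ 0) (hyx : ‖y‖ ≤ ‖x‖) :
    |D.r A x - D.r A y| ≤ 2 * ‖x - y‖ / ‖x‖ := by
  have hx0 : 0 < ‖x‖ := norm_pos_iff.2 hx
  rcases eq_or_ne y 0 with rfl | hy
  · have h1 : D.r A (0 : X) = 0 := by simp [r]
    rw [h1, sub_zero, sub_zero, abs_of_nonneg (D.r0 _ _), mul_div_assoc, div_self hx0.ne']
    linarith [D.r1 hq A x]
  · have hy0 : 0 < ‖y‖ := norm_pos_iff.2 hy
    have h1 : D.r A x - D.r A y = (D.R A x - D.R A y) / ‖x‖ -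
        D.r A y * ((‖x‖ - ‖y‖) / ‖x‖) := by
      unfold r
      field_simp
      ring
    rw [h1]
    have h2 : |(D.R A x - D.R A y) / ‖x‖| ≤ ‖x - y‖ / ‖x‖ := by
      rw [abs_div, abs_of_pos hx0]
      exact div_le_div_of_nonneg_right (D.RL A x y) hx0.le
    have h3 : |D.r A y * ((‖x‖ - ‖y‖) / ‖x‖)| ≤ ‖x - y‖ / ‖x‖ := by
      rw [abs_mul, abs_of_nonneg (D.r0 _ _), abs_div, abs_of_pos hx0]
      have h4 : |‖x‖ - ‖y‖| ≤ ‖x - y‖ := abs_norm_sub_norm_le x y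
      calc D.r A y * (|‖x‖ - ‖y‖| / ‖x‖) ≤ 1 * (|‖x‖ - ‖y‖| / ‖x‖) :=
            mul_le_mul_of_nonneg_right (D.r1 hq A y) (by positivity)
        _ ≤ ‖x - y‖ / ‖x‖ := by
            rw [one_mul]
            exact div_le_div_of_nonneg_right h4 hx0.le
    calc _ ≤ |(D.R A x - D.R A y) / ‖x‖| + |D.r A y * ((‖x‖ - ‖y‖) / ‖x‖)| := abs_sub _ _
      _ ≤ ‖x - y‖ / ‖x‖ + ‖x - y‖ / ‖x‖ := add_le_add h2 h3
      _ = _ := by ring

/-- the test functions -/
noncomputable def F (n : ℕ) (A : Set ℕ) (x : X) : ℝ := D.φ n x * D.r A x ^ q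

theorem F_sub (hq : 1 < q) (n : ℕ) (A : Set ℕ) (x y : X) :
    D.F n A x - D.F n A y = D.φ n (x - y) * D.r A x ^ q + D.φ n y * (D.r A x ^ q - D.r A y ^ q) := by
  unfold F
  rw [map_sub]
  ring

theorem φ_le (hq : 1 < q) (n : ℕ) (x : X) : |D.φ n x| ≤ ‖x‖ := (D.hφ n x).trans (D.Rle hq _ _)

theorem F_lip (hq : 1 < q) (n : ℕ) (A : Set ℕ) (x y : X) :
    |D.F n A x - D.F n A y| ≤ (1 + 2 * q) * ‖x - y‖ := by
  wlog hyx : ‖y‖ ≤ ‖x‖ generalizing x y
  · have := this y x (le_of_not_ge hyx)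
    rwa [abs_sub_comm, norm_sub_rev] at this
  rcases eq_or_ne x 0 with rfl | hx
  · have : y = 0 := by
      rw [norm_zero] at hyx
      exact norm_le_zero_iff.1 hyx
    subst this
    simp
  have hx0 : 0 < ‖x‖ := norm_pos_iff.2 hx
  rw [D.F_sub hq]
  have h1 : |D.φ n (x - y) * D.r A x ^ q| ≤ ‖x - y‖ := by
    rw [abs_mul, abs_of_nonneg (Real.rpow_nonneg (D.r0 _ _) _)]
    calc _ ≤ ‖x - y‖ * 1 := mul_le_mul (D.φ_le hq n _)
          (Real.rpow_le_one (D.r0 _ _) (D.r1 hq _ _) (by linarith))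
          (Real.rpow_nonneg (D.r0 _ _) _) (norm_nonneg _)
      _ = _ := mul_one _
  have h2 : |D.φ n y * (D.r A x ^ q - D.r A y ^ q)| ≤ 2 * q * ‖x - y‖ := by
    rw [abs_mul]
    have h3 : |D.φ n y| ≤ ‖x‖ := (D.φ_le hq n y).trans hyx
    have h4 : |D.r A x ^ q - D.r A y ^ q| ≤ q * (2 * ‖x - y‖ / ‖x‖) :=
      (abs_pow_sub_le' hq.le (D.r0 _ _) (D.r0 _ _) (D.r1 hq _ _) (D.r1 hq _ _)).trans
        (mul_le_mul_of_nonneg_left (D.rsub hq A hx hyx) (by linarith))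
    calc _ ≤ ‖x‖ * (q * (2 * ‖x - y‖ / ‖x‖)) := mul_le_mul h3 h4 (abs_nonneg _) hx0.le
      _ = _ := by field_simp
  calc _ ≤ _ := abs_add_le _ _
    _ ≤ ‖x - y‖ + 2 * q * ‖x - y‖ := add_le_add h1 h2
    _ = _ := by ring

theorem sum_r (hq : 1 < q) (N : ℕ) (x : X) :
    ∑ n ∈ Finset.range N, D.r {n} x ^ q ≤ 1 := by
  rcases eq_or_ne x 0 with rfl | hx
  · have h : ∀ n, D.r {n} (0 : X) = 0 := fun n => by simp [r]
    simp [h, Real.zero_rpow (by linarith : q ≠ 0)]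
  have hx0 : 0 < ‖x‖ := norm_pos_iff.2 hx
  have h1 : ∀ N : ℕ, ∑ n ∈ Finset.range N, D.R {n} x ^ q = D.R {n | n < N} x ^ q := by
    intro N
    induction N with
    | zero =>
      have h2 := D.Radd ∅ ∅ x (by simp)
      rw [union_empty] at h2
      have h3 : {n : ℕ | n < 0} = ∅ := by ext; simp
      rw [h3, Finset.sum_range_zero]
      linarith
    | succ N ih =>
      rw [Finset.sum_range_succ, ih]
      have h2 : {n : ℕ | n < N + 1} = {n | n < N} ∪ {N} := by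
        ext k
        simp only [mem_ofPred_eq, mem_union, mem_singleton_iff]
        omega
      rw [h2, D.Radd]
      rw [Set.disjoint_singleton_right]
      simp
  have h2 : ∑ n ∈ Finset.range N, D.r {n} x ^ q =
      (∑ n ∈ Finset.range N, D.R {n} x ^ q) / ‖x‖ ^ q := by
    rw [Finset.sum_div]
    refine Finset.sum_congr rfl fun n _ => ?_
    rw [r, Real.div_rpow (D.R0 _ _) hx0.le]
  rw [h2, h1]
  refine div_le_one_of_le₀ ?_ (by positivity)
  exact Real.rpow_le_rpow (D.R0 _ _) (D.Rle hq _ _) (by linarith)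

theorem G_lip (hq : 1 < q) (N : ℕ) (x y : X) :
    |∑ n ∈ Finset.range N, D.F n {n} x - ∑ n ∈ Finset.range N, D.F n {n} y| ≤
      (1 + 4 * q) * ‖x - y‖ := by
  wlog hyx : ‖y‖ ≤ ‖x‖ generalizing x y
  · have := this y x (le_of_not_ge hyx)
    rwa [abs_sub_comm, norm_sub_rev] at this
  rcases eq_or_ne x 0 with rfl | hx
  · have : y = 0 := by
      rw [norm_zero] at hyx
      exact norm_le_zero_iff.1 hyx
    subst this
    simp
  have hx0 : 0 < ‖x‖ := norm_pos_iff.2 hx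
  have hterm : ∀ n, |D.F n {n} x - D.F n {n} y| ≤ ‖x - y‖ * D.r {n} x ^ q +
      2 * q * ‖x - y‖ * (D.r {n} x ^ q + D.r {n} y ^ q) := by
    intro n
    rw [D.F_sub hq]
    have h1 : |D.φ n (x - y) * D.r {n} x ^ q| ≤ ‖x - y‖ * D.r {n} x ^ q := by
      rw [abs_mul, abs_of_nonneg (Real.rpow_nonneg (D.r0 _ _) _)]
      exact mul_le_mul_of_nonneg_right (D.φ_le hq n _) (Real.rpow_nonneg (D.r0 _ _) _)
    have h2 : |D.φ n y * (D.r {n} x ^ q - D.r {n} y ^ q)| ≤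
        2 * q * ‖x - y‖ * (D.r {n} x ^ q + D.r {n} y ^ q) := by
      rw [abs_mul]
      have h3 : |D.φ n y| ≤ ‖x‖ * max (D.r {n} x) (D.r {n} y) := by
        rcases eq_or_ne y 0 with rfl | hy
        · rw [map_zero, abs_zero]
          exact mul_nonneg hx0.le (le_max_of_le_left (D.r0 _ _))
        · have hy0 : 0 < ‖y‖ := norm_pos_iff.2 hy
          calc |D.φ n y| ≤ D.R {n} y := D.hφ n y
            _ = ‖y‖ * D.r {n} y := by rw [r]; field_simp
            _ ≤ ‖x‖ * max (D.r {n} x) (D.r {n} y) :=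
                mul_le_mul hyx (le_max_right _ _) (D.r0 _ _) hx0.le
      have h4 := abs_pow_sub_le hq.le (D.r0 {n} x) (D.r0 {n} y)
      have h5 : max (D.r {n} x) (D.r {n} y) ^ q ≤ D.r {n} x ^ q + D.r {n} y ^ q := by
        have hx' : 0 ≤ D.r {n} x ^ q := Real.rpow_nonneg (D.r0 _ _) _
        have hy' : 0 ≤ D.r {n} y ^ q := Real.rpow_nonneg (D.r0 _ _) _
        rcases max_choice (D.r {n} x) (D.r {n} y) with h | h <;> rw [h] <;> linarith
      have h6 := D.rsub hq {n} hx hyx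
      have h7 : 0 ≤ max (D.r {n} x) (D.r {n} y) ^ q :=
        Real.rpow_nonneg (le_max_of_le_left (D.r0 _ _)) _
      calc |D.φ n y| * |D.r {n} x ^ q - D.r {n} y ^ q|
          ≤ ‖x‖ * max (D.r {n} x) (D.r {n} y) * |D.r {n} x ^ q - D.r {n} y ^ q| :=
            mul_le_mul_of_nonneg_right h3 (abs_nonneg _)
        _ = ‖x‖ * (max (D.r {n} x) (D.r {n} y) * |D.r {n} x ^ q - D.r {n} y ^ q|) := by ring
        _ ≤ ‖x‖ * (q * |D.r {n} x - D.r {n} y| * max (D.r {n} x) (D.r {n} y) ^ q) :=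
            mul_le_mul_of_nonneg_left h4 hx0.le
        _ ≤ ‖x‖ * (q * (2 * ‖x - y‖ / ‖x‖) * (D.r {n} x ^ q + D.r {n} y ^ q)) := by
            refine mul_le_mul_of_nonneg_left ?_ hx0.le
            exact mul_le_mul (mul_le_mul_of_nonneg_left h6 (by linarith)) h5 h7
              (by have : 0 ≤ 2 * ‖x - y‖ / ‖x‖ := by positivity
                  exact mul_nonneg (by linarith) this)
        _ = _ := by field_simp
    calc _ ≤ _ := abs_add_le _ _
      _ ≤ _ := add_le_add h1 h2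
  rw [← Finset.sum_sub_distrib]
  refine (Finset.abs_sum_le_sum_abs _ _).trans ?_
  refine (Finset.sum_le_sum fun n _ => hterm n).trans ?_
  rw [Finset.sum_add_distrib, ← Finset.mul_sum, ← Finset.mul_sum, Finset.sum_add_distrib]
  have hsx := D.sum_r hq N x
  have hsy := D.sum_r hq N y
  have h8 : 0 ≤ ‖x - y‖ := norm_nonneg _
  have h9 : 0 ≤ 2 * q * ‖x - y‖ := by
    have : 0 ≤ q := by linarith
    positivity
  have a1 := mul_le_mul_of_nonneg_left hsx h8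
  have a2 := mul_le_mul_of_nonneg_left (add_le_add hsx hsy) h9
  nlinarith

end Dec

end Pool.Agent.V1191.ELP
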