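import Mathlib
import Pool.Agent.V1191.ELP.Dec

set_option autoImplicit false

namespace Pool.Agent.V1191.ELP

open scoped NNReal
open Set Filter Topology

namespace Dec

variable {X : Type*} [NormedAddCommGroup X] [NormedSpace ℝ X] {q : ℝ} (D : Dec X q)

include D

theorem r_g (σ : Equiv.Perm ℕ) (A : Set ℕ) (x : X) : D.r A (D.g σ x) = D.r (σ '' A) x := by
  unfold r
  rw [D.hgR, LinearIsometryEquiv.norm_map]

theorem F_g (σ : Equiv.Perm ℕ) (n : ℕ) (A : Set ℕ) (x : X) :
    D.F n A (D.g σ x) = D.F (σ n) (σ '' A) x := by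
  unfold F
  rw [D.hgφ, D.r_g]

/-- There is no equivariant projection. -/
theorem no_proj (hq : 1 < q) :
    ¬ ∃ P : Lip0 X →ₗ[ℝ] (X →L[ℝ] ℝ), IsEquivariantProjection (Set.range D.g) P := by
  rintro ⟨P, hP⟩
  have hq0 : 0 < q := by linarith
  have hF0 : ∀ n A, D.F n A 0 = 0 := fun n A => by simp [F]
  have hFm : ∀ n A, D.F n A ∈ Lip0 X := fun n A =>
    (mem_Lip0 (hF0 n A) (by linarith) (D.F_lip hq n A)).1
  let f : ℕ → Set ℕ → Lip0 X := fun n A => ⟨D.F n A, hFm n A⟩
  -- equivariance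
  have heq : ∀ (σ : Equiv.Perm ℕ) n A k, P (f (σ n) (σ '' A)) (D.e (σ k)) = P (f n A) (D.e k) := by
    intro σ n A k
    have h := hP.equivariant (D.g σ) ⟨σ, rfl⟩ (f n A) (f (σ n) (σ '' A))
      (fun x => (D.F_g σ n A x).symm) (D.e (σ k))
    rw [h, D.hge]
  -- the value at the first basis vector
  have hadd : ∀ n (A B : Set ℕ), Disjoint A B → P (f n (A ∪ B)) = P (f n A) + P (f n B) := by
    intro n A B hAB
    rw [← map_add]
    congr 1
    apply Subtype.ext
    funext x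
    show D.F n (A ∪ B) x = D.F n A x + D.F n B x
    unfold F r
    rw [Real.div_rpow (D.R0 _ _) (norm_nonneg _), Real.div_rpow (D.R0 _ _) (norm_nonneg _),
      Real.div_rpow (D.R0 _ _) (norm_nonneg _), D.Radd _ _ _ hAB]
    ring
  have huniv : P (f 0 univ) = D.φ 0 := by
    refine hP.proj _ _ fun x => ?_
    show D.F 0 univ x = D.φ 0 x
    rcases eq_or_ne x 0 with rfl | hx
    · simp [F]
    · have hx0 : 0 < ‖x‖ := norm_pos_iff.2 hx
      unfold F r
      rw [D.Runiv, div_self hx0.ne', Real.one_rpow, mul_one]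
  have hpar : P (f 0 {n | n ≠ 0}) (D.e 0) = 0 := by
    refine paradox (fun A => P (f 0 A) (D.e 0)) ?_ ?_
    · intro A B _ _ hAB
      show P (f 0 (A ∪ B)) (D.e 0) = P (f 0 A) (D.e 0) + P (f 0 B) (D.e 0)
      rw [hadd 0 A B hAB]
      rfl
    · intro σ A h0 _
      show P (f 0 (σ '' A)) (D.e 0) = P (f 0 A) (D.e 0)
      have := heq σ 0 A 0
      rwa [h0] at this
  have hone : P (f 0 {0}) (D.e 0) = 1 := by
    have h1 : ({0} ∪ {n | n ≠ 0} : Set ℕ) = univ := by
      ext n
      simp only [mem_union, mem_singleton_iff, mem_ofPred_eq, mem_univ, iff_true]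
      exact em _
    have h2 : Disjoint ({0} : Set ℕ) {n | n ≠ 0} := by simp
    have h3 := hadd 0 _ _ h2
    rw [h1, huniv] at h3
    have h4 := congrArg (fun ψ : X →L[ℝ] ℝ => ψ (D.e 0)) h3
    simp only [ContinuousLinearMap.add_apply, D.hφe, hpar, add_zero] at h4
    exact h4.symm
  have hnn : ∀ n, P (f n {n}) (D.e n) = 1 := by
    intro n
    have h := heq (Equiv.swap 0 n) 0 {0} 0
    simp only [Equiv.swap_apply_left, image_singleton] at h
    rw [h, hone]
  set ρ : ℝ := P (f 0 {0}) (D.e 1) with hρ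
  have hnk : ∀ n k, n ≠ k → P (f n {n}) (D.e k) = ρ := by
    intro n k hne
    -- a permutation with `0 ↦ n`, `1 ↦ k`
    obtain ⟨σ, h0, h1⟩ : ∃ σ : Equiv.Perm ℕ, σ 0 = n ∧ σ 1 = k := by
      have hk : Equiv.swap 0 n k ≠ 0 := by
        intro h
        have := congrArg (Equiv.swap 0 n) h
        rw [Equiv.swap_apply_self, Equiv.swap_apply_left] at this
        exact hne this.symm
      refine ⟨(Equiv.swap 1 (Equiv.swap 0 n k)).trans (Equiv.swap 0 n), ?_, ?_⟩
      · rw [Equiv.trans_apply, Equiv.swap_apply_of_ne_of_ne zero_ne_one hk.symm,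
          Equiv.swap_apply_left]
      · rw [Equiv.trans_apply, Equiv.swap_apply_left, Equiv.swap_apply_self]
    have h := heq σ 0 {0} 1
    rw [h0, h1, image_singleton, h0] at h
    exact h
  -- the sums
  have hGm : ∀ N : ℕ, (fun x => ∑ n ∈ Finset.range N, D.F n {n} x) ∈ Lip0 X ∧
      LipschitzWith (1 + 4 * q).toNNReal (fun x => ∑ n ∈ Finset.range N, D.F n {n} x) := by
    intro N
    refine mem_Lip0 ?_ (by linarith) (D.G_lip hq N)
    simp [hF0]
  obtain ⟨C, hC⟩ := hP.bounded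
  have hGP : ∀ N : ℕ, P ⟨_, (hGm N).1⟩ = ∑ n ∈ Finset.range N, P (f n {n}) := by
    intro N
    rw [← map_sum]
    congr 1
    apply Subtype.ext
    funext x
    rw [Submodule.coe_sum, Finset.sum_apply]
  have hval : ∀ N : ℕ, P ⟨_, (hGm N).1⟩ (∑ k ∈ Finset.range N, D.e k) = N * (1 + (N - 1) * ρ) := by
    intro N
    rw [hGP, ContinuousLinearMap.sum_apply]
    have h1 : ∀ n ∈ Finset.range N, (P (f n {n})) (∑ k ∈ Finset.range N, D.e k) =
        1 + (N - 1) * ρ := by
      intro n hn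
      rw [map_sum, ← Finset.add_sum_erase _ _ hn, hnn]
      congr 1
      have h2 : ∀ k ∈ (Finset.range N).erase n, (P (f n {n})) (D.e k) = ρ := by
        intro k hk
        exact hnk n k (Finset.ne_of_mem_erase hk).symm
      rw [Finset.sum_congr rfl h2, Finset.sum_const, Finset.card_erase_of_mem hn,
        Finset.card_range, nsmul_eq_mul]
      rw [Finset.mem_range] at hn
      rw [Nat.cast_sub (by omega : 1 ≤ N)]
      simp
    rw [Finset.sum_congr rfl h1, Finset.sum_const, Finset.card_range, nsmul_eq_mul]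
  set K : ℝ := |C| * (1 + 4 * q) with hK
  have hbound : ∀ N : ℕ, 0 < N → |1 + ((N : ℝ) - 1) * ρ| ≤ K * (N : ℝ) ^ (1 / q - 1) := by
    intro N hN
    have hN0 : (0 : ℝ) < N := by exact_mod_cast hN
    have h1 := hC ⟨_, (hGm N).1⟩ _ (hGm N).2
    rw [Real.coe_toNNReal _ (by linarith)] at h1
    have h2 : |P ⟨_, (hGm N).1⟩ (∑ k ∈ Finset.range N, D.e k)| ≤
        K * (N : ℝ) ^ (1 / q) := by
      calc _ = ‖P ⟨_, (hGm N).1⟩ (∑ k ∈ Finset.range N, D.e k)‖ := (Real.norm_eq_abs _).symm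
        _ ≤ ‖P ⟨_, (hGm N).1⟩‖ * ‖∑ k ∈ Finset.range N, D.e k‖ := ContinuousLinearMap.le_opNorm _ _
        _ ≤ K * (N : ℝ) ^ (1 / q) := by
            refine mul_le_mul ?_ (D.he N) (norm_nonneg _) (by positivity)
            refine h1.trans ?_
            exact mul_le_mul_of_nonneg_right (le_abs_self C) (by linarith)
    rw [hval, abs_mul, abs_of_pos hN0] at h2
    have h3 : (N : ℝ) ^ (1 / q) = N * (N : ℝ) ^ (1 / q - 1) := by
      rw [mul_comm, ← Real.rpow_add_one hN0.ne']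
      ring_nf
    rw [h3] at h2
    have h4 : (N : ℝ) * |1 + ((N : ℝ) - 1) * ρ| ≤ N * (K * (N : ℝ) ^ (1 / q - 1)) := by
      calc _ ≤ _ := h2
        _ = _ := by ring
    exact le_of_mul_le_mul_left h4 hN0
  have hlim : Tendsto (fun N : ℕ => K * (N : ℝ) ^ (1 / q - 1)) atTop (𝓝 0) := by
    have h1 : Tendsto (fun N : ℕ => (N : ℝ) ^ (-(1 - 1 / q))) atTop (𝓝 0) := by
      have hpos : 0 < 1 - 1 / q := by
        rw [sub_pos, div_lt_one hq0]
        exact hq
      exact (tendsto_rpow_neg_atTop hpos).comp tendsto_natCast_atTop_atTop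
    have h2 := h1.const_mul K
    rw [mul_zero] at h2
    refine h2.congr fun N => ?_
    rw [neg_sub]
  have hu : Tendsto (fun N : ℕ => 1 + ((N : ℝ) - 1) * ρ) atTop (𝓝 0) := by
    rw [tendsto_zero_iff_abs_tendsto_zero]
    refine squeeze_zero' (Eventually.of_forall fun N => abs_nonneg _) ?_ hlim
    filter_upwards [eventually_gt_atTop 0] with N hN using hbound N hN
  have hd : Tendsto (fun N : ℕ => (1 + (((N + 1 : ℕ) : ℝ) - 1) * ρ) - (1 + ((N : ℝ) - 1) * ρ))
      atTop (𝓝 (0 - 0)) := (hu.comp (tendsto_add_atTop_nat 1)).sub hu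
  have hρ0 : ρ = 0 := by
    have h1 : (fun N : ℕ => (1 + (((N + 1 : ℕ) : ℝ) - 1) * ρ) - (1 + ((N : ℝ) - 1) * ρ)) =
        fun _ => ρ := by
      funext N
      push_cast
      ring
    rw [h1, sub_zero] at hd
    exact tendsto_nhds_unique tendsto_const_nhds hd
  rw [hρ0] at hu
  simp only [mul_zero, add_zero] at hu
  exact one_ne_zero (tendsto_nhds_unique tendsto_const_nhds hu)

end Dec

end Pool.Agent.V1191.ELP
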