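import Mathlib
import Pool.Agent.V1191.ELP.NoDec

set_option autoImplicit false

namespace Pool.Agent.V1191.ELP

open scoped NNReal ENNReal
open Set Filter Topology

section seq

variable {p : ℝ≥0∞} [Fact (1 ≤ p)]

/-- the sequence space -/
abbrev Seq (p : ℝ≥0∞) : Type := lp (fun _ : ℕ => ℝ) p

theorem memℓp_of_le {x : ℕ → ℝ} (hp : 0 < p.toReal) (hx : Memℓp x p) {y : ℕ → ℝ}
    (h : ∀ n, |y n| ≤ |x n|) : Memℓp y p := by
  refine memℓp_gen ?_
  refine Summable.of_nonneg_of_le (fun n => by positivity) (fun n => ?_) (hx.summable hp)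
  exact Real.rpow_le_rpow (norm_nonneg _) (h n) hp.le

theorem memℓp_perm {x : ℕ → ℝ} (hp : 0 < p.toReal) (hx : Memℓp x p) (σ : Equiv.Perm ℕ) :
    Memℓp (fun n => x (σ n)) p := by
  refine memℓp_gen ?_
  exact (σ.summable_iff (f := fun n => ‖x n‖ ^ p.toReal)).2 (hx.summable hp)

/-- restriction to a set of coordinates -/
noncomputable def res (hp : 0 < p.toReal) (A : Set ℕ) (x : Seq p) : Seq p :=
  ⟨A.indicator (x : ℕ → ℝ), memℓp_of_le hp (lp.memℓp x) (fun n => by
    rw [← Real.norm_eq_abs, ← Real.norm_eq_abs]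
    exact norm_indicator_le_norm_self _ _)⟩

theorem norm_eq_of (hp : 0 < p.toReal) {x y : Seq p}
    (h : ∑' n, ‖(x : ℕ → ℝ) n‖ ^ p.toReal = ∑' n, ‖(y : ℕ → ℝ) n‖ ^ p.toReal) : ‖x‖ = ‖y‖ := by
  rw [lp.norm_eq_tsum_rpow hp, lp.norm_eq_tsum_rpow hp, h]

theorem norm_le_of (hp : 0 < p.toReal) {x y : Seq p}
    (h : ∀ n, |(x : ℕ → ℝ) n| ≤ |(y : ℕ → ℝ) n|) : ‖x‖ ≤ ‖y‖ := by
  rw [lp.norm_eq_tsum_rpow hp, lp.norm_eq_tsum_rpow hp]
  refine Real.rpow_le_rpow (tsum_nonneg fun n => by positivity) ?_ (by positivity)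
  refine Summable.tsum_le_tsum (fun n => ?_) ((lp.memℓp x).summable hp)
    ((lp.memℓp y).summable hp)
  exact Real.rpow_le_rpow (norm_nonneg _) (h n) hp.le

/-- the isometry given by a permutation of the coordinates -/
noncomputable def perm (hp : 0 < p.toReal) (σ : Equiv.Perm ℕ) : Seq p ≃ₗᵢ[ℝ] Seq p where
  toFun x := ⟨fun n => (x : ℕ → ℝ) (σ n), memℓp_perm hp (lp.memℓp x) σ⟩
  map_add' x y := by ext n; rfl
  map_smul' c x := by ext n; rfl
  invFun x := ⟨fun n => (x : ℕ → ℝ) (σ.symm n), memℓp_perm hp (lp.memℓp x) σ.symm⟩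
  left_inv x := by
    ext n
    show (x : ℕ → ℝ) (σ (σ.symm n)) = _
    rw [Equiv.apply_symm_apply]
  right_inv x := by
    ext n
    show (x : ℕ → ℝ) (σ.symm (σ n)) = _
    rw [Equiv.symm_apply_apply]
  norm_map' x := by
    refine norm_eq_of hp ?_
    exact σ.tsum_eq (fun n => ‖(x : ℕ → ℝ) n‖ ^ p.toReal)

theorem perm_apply (hp : 0 < p.toReal) (σ : Equiv.Perm ℕ) (x : Seq p) (n : ℕ) :
    (perm hp σ x : ℕ → ℝ) n = (x : ℕ → ℝ) (σ n) := rfl

theorem res_apply (hp : 0 < p.toReal) (A : Set ℕ) (x : Seq p) (n : ℕ) :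
    (res hp A x : ℕ → ℝ) n = A.indicator (x : ℕ → ℝ) n := rfl

/-- the coordinate functionals -/
noncomputable def ev (n : ℕ) : Seq p →L[ℝ] ℝ :=
  LinearMap.mkContinuous
    { toFun := fun x => (x : ℕ → ℝ) n
      map_add' := fun x y => rfl
      map_smul' := fun c x => rfl } 1 (fun x => by
        rw [one_mul]
        exact lp.norm_apply_le_norm (by
          have : (1 : ℝ≥0∞) ≤ p := Fact.out
          intro h
          rw [h] at this
          simp at this) x n)

theorem ev_apply (n : ℕ) (x : Seq p) : ev n x = (x : ℕ → ℝ) n := rfl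

theorem p_ne_zero : p ≠ 0 := by
  have : (1 : ℝ≥0∞) ≤ p := Fact.out
  intro h
  rw [h] at this
  simp at this

/-- the decomposition of the sequence space -/
noncomputable def seqDec (hp : 0 < p.toReal) : Dec (Seq p) p.toReal where
  R A x := ‖res hp A x‖
  φ := ev
  e n := lp.single p n (1 : ℝ)
  g := perm hp
  R0 A x := norm_nonneg _
  RL A x y := by
    refine (abs_norm_sub_norm_le _ _).trans ?_
    refine norm_le_of hp fun n => ?_
    rw [lp.coeFn_sub, lp.coeFn_sub, Pi.sub_apply, Pi.sub_apply, res_apply, res_apply]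
    by_cases h : n ∈ A
    · rw [indicator_of_mem h, indicator_of_mem h]
    · rw [indicator_of_notMem h, indicator_of_notMem h, sub_zero, abs_zero]
      exact abs_nonneg _
  Radd A B x hAB := by
    rw [lp.norm_rpow_eq_tsum hp, lp.norm_rpow_eq_tsum hp, lp.norm_rpow_eq_tsum hp,
      ← Summable.tsum_add ((lp.memℓp (res hp A x)).summable hp)
        ((lp.memℓp (res hp B x)).summable hp)]
    refine tsum_congr fun n => ?_
    rw [res_apply, res_apply, res_apply]
    by_cases hA : n ∈ A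
    · have hB : n ∉ B := fun h => Set.disjoint_left.1 hAB hA h
      rw [indicator_of_mem (show n ∈ A ∪ B from Or.inl hA), indicator_of_mem hA, indicator_of_notMem hB, norm_zero,
        Real.zero_rpow hp.ne', add_zero]
    · by_cases hB : n ∈ B
      · rw [indicator_of_mem (show n ∈ A ∪ B from Or.inr hB), indicator_of_notMem hA, indicator_of_mem hB, norm_zero,
          Real.zero_rpow hp.ne', zero_add]
      · rw [indicator_of_notMem (by rintro (h | h) <;> contradiction), indicator_of_notMem hA,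
          indicator_of_notMem hB, norm_zero, Real.zero_rpow hp.ne', zero_add]
  Runiv x := by
    congr 1
    ext n
    rw [res_apply, indicator_univ]
  hφ n x := by
    have h := lp.norm_apply_le_norm (p := p) p_ne_zero (res hp {n} x) n
    rw [res_apply, indicator_of_mem (mem_singleton n)] at h
    exact h
  he N := by
    have h := lp.norm_sum_single hp (fun _ : ℕ => (1 : ℝ)) (Finset.range N)
    simp only [norm_one, Real.one_rpow, Finset.sum_const, Finset.card_range, nsmul_eq_mul,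
      mul_one] at h
    rw [← h, ← Real.rpow_mul (norm_nonneg _), mul_one_div_cancel hp.ne', Real.rpow_one]
  hφe := by
    rw [ev_apply, lp.single_apply_self]
  hgR σ A x := by
    refine norm_eq_of hp ?_
    rw [← σ.tsum_eq (fun n => ‖(res hp (σ '' A) x : ℕ → ℝ) n‖ ^ p.toReal)]
    refine tsum_congr fun n => ?_
    rw [res_apply, res_apply]
    by_cases h : n ∈ A
    · rw [indicator_of_mem h, indicator_of_mem (mem_image_of_mem _ h), perm_apply]
    · rw [indicator_of_notMem h, indicator_of_notMem (fun h' => h (by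
        obtain ⟨m, hm, h2⟩ := h'
        rwa [← σ.injective h2]))]
  hgφ σ n x := rfl
  hge σ n := by
    ext k
    rw [perm_apply]
    by_cases h : k = n
    · subst h
      rw [lp.single_apply_self, lp.single_apply_self]
    · rw [lp.single_apply_ne _ _ _ (fun h' => h (σ.injective h')), lp.single_apply_ne _ _ _ h]

/-- For `1 < p < ∞` there is no projection of `Lip_0(ℓ_p)` onto the dual space which commutes with
the permutations of the coordinates. -/
theorem seq_no_proj (hp1 : 1 < p) (hp : p ≠ ∞) :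
    ¬ ∃ P : Lip0 (Seq p) →ₗ[ℝ] (Seq p →L[ℝ] ℝ),
      IsEquivariantProjection {s : Seq p ≃ₗᵢ[ℝ] Seq p | ∃ σ : Equiv.Perm ℕ, ∀ (y : Seq p) (n : ℕ),
        (s y : ℕ → ℝ) n = (y : ℕ → ℝ) (σ n)} P := by
  have hq : 1 < p.toReal := by
    have := (ENNReal.toReal_lt_toReal ENNReal.one_ne_top hp).2 hp1
    simpa using this
  rintro ⟨P, hP⟩
  refine (seqDec (p := p) (by linarith)).no_proj hq ⟨P, hP.bounded, hP.proj, ?_⟩
  rintro g ⟨σ, rfl⟩
  exact hP.equivariant _ ⟨σ, fun y n => rfl⟩

/-- For `1 < p < ∞` the space `ℓ_p` does not have the equivariant dual lifting property. -/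
theorem seq_not (hp1 : 1 < p) (hp : p ≠ ∞) : ¬ HasEquivariantDualLifting (Seq p) := by
  rintro ⟨P, hP⟩
  exact seq_no_proj hp1 hp ⟨P, hP.bounded, hP.proj, fun g _ => hP.equivariant g (mem_univ g)⟩

end seq

end Pool.Agent.V1191.ELP
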