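import Mathlib
import Pool.Agent.V1191.ELP.SeqP
import Pool.Agent.V1191.ELP.Iso

/-!
# The decomposition of `L_p(ℕ × [0,1])`
-/

set_option autoImplicit false

namespace Pool.Agent.V1191.ELP

open MeasureTheory Set Filter
open scoped ENNReal NNReal

/-- the measure space `ℕ × [0,1]` -/
noncomputable abbrev cl : Measure (ℕ × ℝ) := (Measure.count : Measure ℕ).prod lam

/-- the part of `ℕ × ℝ` over `A` -/
def St (A : Set ℕ) : Set (ℕ × ℝ) := {z | z.1 ∈ A}

theorem St_eq (A : Set ℕ) : St A = A ×ˢ univ := by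
  ext z
  simp [St]

theorem meas_St (A : Set ℕ) : MeasurableSet (St A) :=
  measurable_fst (MeasurableSet.of_discrete (s := A))

theorem lam_univ : lam univ = 1 := by
  rw [Measure.restrict_apply_univ, Real.volume_Icc]
  simp

theorem cl_St (A : Set ℕ) : cl (St A) = Measure.count A := by
  rw [St_eq, Measure.prod_prod, lam_univ, mul_one]

theorem cl_fin (s : Finset ℕ) : cl (St s) = (s.card : ℝ≥0∞) := by
  rw [cl_St, Measure.count_apply_finset]

theorem cl_fin_ne (s : Finset ℕ) : cl (St s) ≠ ∞ := by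
  rw [cl_fin]
  exact ENNReal.natCast_ne_top _

/-- the permutation as a measurable equivalence -/
def pm (σ : Equiv.Perm ℕ) : ℕ ≃ᵐ ℕ := ⟨σ, measurable_from_nat, measurable_from_nat⟩

theorem mp_pm (σ : Equiv.Perm ℕ) : MeasurePreserving (pm σ) (Measure.count : Measure ℕ)
    Measure.count := by
  refine ⟨(pm σ).measurable, ?_⟩
  ext s hs
  rw [(pm σ).map_apply]
  have : (pm σ) ⁻¹' s = σ.symm '' s := (Equiv.image_symm_eq_preimage σ s).symm
  rw [this, Measure.count_injective_image σ.symm.injective]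

/-- the induced transformation of `ℕ × ℝ` -/
def ps (σ : Equiv.Perm ℕ) : (ℕ × ℝ) ≃ᵐ (ℕ × ℝ) := (pm σ).prodCongr (MeasurableEquiv.refl ℝ)

theorem ps_apply (σ : Equiv.Perm ℕ) (z : ℕ × ℝ) : ps σ z = (σ z.1, z.2) := rfl

theorem mp_ps (σ : Equiv.Perm ℕ) : MeasurePreserving (ps σ) cl cl :=
  (mp_pm σ).prod (MeasurePreserving.id lam)

theorem ps_preimage (σ : Equiv.Perm ℕ) (A : Set ℕ) : ps σ ⁻¹' St (σ '' A) = St A := by
  ext z
  show σ z.1 ∈ σ '' A ↔ z.1 ∈ A
  exact ⟨fun ⟨m, hm, h⟩ => by rwa [← σ.injective h], fun h => ⟨_, h, rfl⟩⟩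

section dec

variable {p : ℝ≥0∞} [Fact (1 ≤ p)]

theorem one_le : (1 : ℝ≥0∞) ≤ p := Fact.out

/-- the norm of the restriction -/
noncomputable def Rn (A : Set ℕ) (x : Lp ℝ p cl) : ℝ :=
  ‖LpToLpRestrictCLM (ℕ × ℝ) ℝ ℝ cl p (St A) x‖

theorem Rn_eq (A : Set ℕ) (x : Lp ℝ p cl) :
    Rn A x = (eLpNorm (x : ℕ × ℝ → ℝ) p (cl.restrict (St A))).toReal := by
  rw [Rn, Lp.norm_def, eLpNorm_congr_ae (LpToLpRestrictCLM_coeFn ℝ (St A) x)]

theorem Rn_le (A : Set ℕ) (x : Lp ℝ p cl) : Rn A x ≤ ‖x‖ := by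
  rw [Rn_eq, Lp.norm_def]
  exact ENNReal.toReal_mono (Lp.eLpNorm_ne_top _) (eLpNorm_mono_measure _ Measure.restrict_le_self)

theorem Rn_sub (A : Set ℕ) (x y : Lp ℝ p cl) : |Rn A x - Rn A y| ≤ ‖x - y‖ := by
  refine (abs_norm_sub_norm_le _ _).trans ?_
  rw [← map_sub]
  exact Rn_le A (x - y)

theorem fin_restrict (A : Set ℕ) (x : Lp ℝ p cl) :
    eLpNorm (x : ℕ × ℝ → ℝ) p (cl.restrict (St A)) ≠ ∞ :=
  ((eLpNorm_mono_measure _ Measure.restrict_le_self).trans_lt (Lp.eLpNorm_lt_top x)).ne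

theorem Rn_pow (hp : p ≠ ∞) (A : Set ℕ) (x : Lp ℝ p cl) :
    Rn A x ^ p.toReal = (∫⁻ z in St A, ‖(x : ℕ × ℝ → ℝ) z‖ₑ ^ p.toReal ∂cl).toReal := by
  have h0 : p ≠ 0 := p_ne_zero
  have h1 : 0 < p.toReal := ENNReal.toReal_pos h0 hp
  rw [Rn_eq, ENNReal.toReal_rpow, eLpNorm_eq_lintegral_rpow_enorm_toReal h0 hp,
    ← ENNReal.rpow_mul, one_div_mul_cancel h1.ne', ENNReal.rpow_one]

theorem Rn_fin (hp : p ≠ ∞) (A : Set ℕ) (x : Lp ℝ p cl) :
    ∫⁻ z in St A, ‖(x : ℕ × ℝ → ℝ) z‖ₑ ^ p.toReal ∂cl ≠ ∞ := by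
  have h0 : p ≠ 0 := p_ne_zero
  have h1 : 0 < p.toReal := ENNReal.toReal_pos h0 hp
  have h2 := fin_restrict A x
  rw [eLpNorm_eq_lintegral_rpow_enorm_toReal h0 hp] at h2
  intro h3
  rw [h3, ENNReal.top_rpow_of_pos (by positivity)] at h2
  exact h2 rfl

theorem prob_St (n : ℕ) : IsProbabilityMeasure (cl.restrict (St {n})) :=
  ⟨by
    rw [Measure.restrict_apply_univ]
    have := cl_fin {n}
    rw [Finset.coe_singleton] at this
    rw [this]
    simp⟩

theorem int_St (n : ℕ) (x : Lp ℝ p cl) : IntegrableOn (x : ℕ × ℝ → ℝ) (St {n}) cl := by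
  haveI := prob_St n
  exact ((Lp.memLp x).restrict (St {n})).integrable one_le

theorem abs_int_le (n : ℕ) (x : Lp ℝ p cl) : |∫ z in St {n}, (x : ℕ × ℝ → ℝ) z ∂cl| ≤ Rn {n} x := by
  haveI := prob_St n
  have h1 : |∫ z in St {n}, (x : ℕ × ℝ → ℝ) z ∂cl|
      ≤ (eLpNorm (x : ℕ × ℝ → ℝ) 1 (cl.restrict (St {n}))).toReal := by
    rw [← Real.norm_eq_abs]
    refine (norm_integral_le_integral_norm _).trans (le_of_eq ?_)
    rw [eLpNorm_one_eq_lintegral_enorm,
      integral_norm_eq_lintegral_enorm (int_St n x).aestronglyMeasurable]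
  refine h1.trans ?_
  rw [Rn_eq]
  exact ENNReal.toReal_mono (fin_restrict _ x)
    (eLpNorm_le_eLpNorm_of_exponent_le one_le (int_St n x).aestronglyMeasurable)

/-- the mean over `{n} × [0,1]` -/
noncomputable def mean (n : ℕ) : Lp ℝ p cl →L[ℝ] ℝ :=
  LinearMap.mkContinuous
    { toFun := fun x => ∫ z in St {n}, (x : ℕ × ℝ → ℝ) z ∂cl
      map_add' := fun x y => by
        rw [← integral_add (int_St n x) (int_St n y)]
        exact integral_congr_ae (ae_restrict_of_ae (Lp.coeFn_add x y))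
      map_smul' := fun c x => by
        rw [RingHom.id_apply, smul_eq_mul, ← integral_const_mul]
        exact integral_congr_ae (ae_restrict_of_ae (Lp.coeFn_smul c x)) } 1 (fun x => by
    rw [one_mul]
    exact (abs_int_le n x).trans (Rn_le _ _))

theorem mean_apply (n : ℕ) (x : Lp ℝ p cl) : mean n x = ∫ z in St {n}, (x : ℕ × ℝ → ℝ) z ∂cl := rfl

/-- the indicator function over a finite set -/
noncomputable def one (s : Finset ℕ) : Lp ℝ p cl :=
  indicatorConstLp p (meas_St s) (cl_fin_ne s) (1 : ℝ)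

theorem one_coe (s : Finset ℕ) : (one s : Lp ℝ p cl) =ᵐ[cl] (St s).indicator fun _ => (1 : ℝ) :=
  indicatorConstLp_coeFn

theorem one_sum (N : ℕ) : ∑ k ∈ Finset.range N, (one {k} : Lp ℝ p cl) = one (Finset.range N) := by
  induction N with
  | zero =>
    rw [Finset.range_zero, Finset.sum_empty]
    refine (Lp.ext ?_).symm
    filter_upwards [one_coe (p := p) ∅, Lp.coeFn_zero ℝ p cl] with z h1 h2
    rw [h1, h2, indicator_of_notMem]
    · rfl
    · intro h
      exact absurd h (by simp [St])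
  | succ N ih =>
    rw [Finset.sum_range_succ, ih]
    refine Lp.ext ?_
    filter_upwards [one_coe (p := p) (Finset.range N), one_coe (p := p) {N},
      one_coe (p := p) (Finset.range (N + 1)),
      Lp.coeFn_add (one (p := p) (Finset.range N)) (one {N})] with z h1 h2 h3 h4
    rw [h4, Pi.add_apply, h1, h2, h3]
    have e1 : z ∈ St (Finset.range N : Set ℕ) ↔ z.1 < N := by simp [St]
    have e2 : z ∈ St (({N} : Finset ℕ) : Set ℕ) ↔ z.1 = N := by simp [St]
    have e3 : z ∈ St (Finset.range (N + 1) : Set ℕ) ↔ z.1 < N + 1 := by simp [St]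
    rcases lt_trichotomy z.1 N with h | h | h
    · rw [indicator_of_mem (e1.2 h), indicator_of_notMem (fun h' => by have := e2.1 h'; omega),
        indicator_of_mem (e3.2 (by omega)), add_zero]
    · rw [indicator_of_notMem (fun h' => by have := e1.1 h'; omega), indicator_of_mem (e2.2 h),
        indicator_of_mem (e3.2 (by omega)), zero_add]
    · rw [indicator_of_notMem (fun h' => by have := e1.1 h'; omega),
        indicator_of_notMem (fun h' => by have := e2.1 h'; omega),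
        indicator_of_notMem (fun h' => by have := e3.1 h'; omega), add_zero]

theorem norm_one_set (hp : p ≠ ∞) (s : Finset ℕ) :
    ‖(one s : Lp ℝ p cl)‖ = (s.card : ℝ) ^ (1 / p.toReal) := by
  rw [one, norm_indicatorConstLp p_ne_zero hp, norm_one, one_mul, Measure.real, cl_fin,
    ENNReal.toReal_natCast]

/-- the decomposition of `L_p(ℕ × [0,1])` -/
noncomputable def contDec (hp : p ≠ ∞) : Dec (Lp ℝ p cl) p.toReal where
  R := Rn
  φ := mean
  e n := one {n}
  g σ := cmp p (ps σ) (mp_ps σ)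
  R0 A x := norm_nonneg _
  RL := Rn_sub
  Radd A B x hAB := by
    rw [Rn_pow hp, Rn_pow hp, Rn_pow hp, ← ENNReal.toReal_add (Rn_fin hp A x) (Rn_fin hp B x)]
    congr 1
    have h1 : St (A ∪ B) = St A ∪ St B := rfl
    rw [h1, lintegral_union (meas_St B)]
    rw [Set.disjoint_left]
    intro z h2 h3
    exact Set.disjoint_left.1 hAB h2 h3
  Runiv x := by
    have h1 : St univ = univ := by
      ext z
      simp [St]
    rw [Rn_eq, h1, Measure.restrict_univ, Lp.norm_def]
  hφ n x := abs_int_le n x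
  he N := by
    rw [one_sum, norm_one_set hp, Finset.card_range]
  hφe := by
    rw [mean_apply, integral_congr_ae (ae_restrict_of_ae (one_coe {0}))]
    have h1 : St (({0} : Finset ℕ) : Set ℕ) = St {0} := by simp
    rw [h1, setIntegral_indicator (meas_St {0}), inter_self, setIntegral_const, smul_eq_mul,
      mul_one, Measure.real, ← h1, cl_fin]
    simp
  hgR σ A x := by
    rw [Rn_eq, Rn_eq, eLpNorm_congr_ae (ae_restrict_of_ae (cmp_coe p (ps σ) (mp_ps σ) x))]
    congr 1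
    have h1 : MeasurePreserving (ps σ) (cl.restrict (St A)) (cl.restrict (St (σ '' A))) := by
      have := (mp_ps σ).restrict_preimage (meas_St (σ '' A))
      rwa [ps_preimage] at this
    exact eLpNorm_comp_measurePreserving
      (((Lp.aestronglyMeasurable x).restrict) : AEStronglyMeasurable _ _) h1
  hgφ σ n x := by
    rw [mean_apply, mean_apply,
      integral_congr_ae (ae_restrict_of_ae (cmp_coe p (ps σ) (mp_ps σ) x))]
    have h1 : St {n} = ps σ ⁻¹' St {σ n} := by
      rw [← image_singleton, ps_preimage]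
    rw [h1]
    exact (mp_ps σ).setIntegral_preimage_emb (ps σ).measurableEmbedding _ _
  hge σ n := by
    refine Lp.ext ?_
    have h1 := (mp_ps σ).quasiMeasurePreserving.ae (one_coe (p := p) {σ n})
    filter_upwards [cmp_coe p (ps σ) (mp_ps σ) (one {σ n}), one_coe (p := p) {n}, h1]
      with z a1 a2 a3
    rw [a1, a2, a3]
    have e1 : ps σ z ∈ St (({σ n} : Finset ℕ) : Set ℕ) ↔ z.1 = n := by
      simp [St, ps_apply]
    have e2 : z ∈ St (({n} : Finset ℕ) : Set ℕ) ↔ z.1 = n := by simp [St]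
    by_cases h : z.1 = n
    · rw [indicator_of_mem (e1.2 h), indicator_of_mem (e2.2 h)]
    · rw [indicator_of_notMem (fun h' => h (e1.1 h')), indicator_of_notMem (fun h' => h (e2.1 h'))]

theorem cont_not (hp1 : 1 < p) (hp : p ≠ ∞) : ¬ HasEquivariantDualLifting (Lp ℝ p cl) := by
  have hq : 1 < p.toReal := by
    have := (ENNReal.toReal_lt_toReal ENNReal.one_ne_top hp).2 hp1
    simpa using this
  rintro ⟨P, hP⟩
  exact (contDec hp).no_proj hq ⟨P, hP.bounded, hP.proj, fun g _ => hP.equivariant g (mem_univ g)⟩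

end dec

/-- For `1 ≤ p < ∞` the space `L_p[0,1]` does not have the equivariant dual lifting property. -/
theorem Lp_not (p : ℝ≥0∞) [Fact (1 ≤ p)] (hp : p ≠ ∞) :
    ¬ HasEquivariantDualLifting (Lp ℝ p lam) := by
  rcases (one_le (p := p)).eq_or_lt with h | h
  · subst h
    exact L1_not
  · intro h1
    obtain ⟨e⟩ := iso_count p hp
    exact cont_not h hp (h1.of_iso e)

end Pool.Agent.V1191.ELP
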