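import Mathlib
import Pool.Agent.V1191.ELP.SeqP

/-!
# `ℓ_1` has the equivariant dual lifting property
-/

set_option autoImplicit false

namespace Pool.Agent.V1191.ELP

open Filter Topology Set
open scoped ENNReal NNReal

/-! ### ultrafilter limits -/

/-- the limit along an ultrafilter -/
noncomputable def ulim (a : ℕ → ℝ) : ℝ := limUnder (hyperfilter ℕ : Filter ℕ) a

theorem ulim_tendsto {a : ℕ → ℝ} {K : ℝ} (h : ∀ n, |a n| ≤ K) :
    Tendsto a (hyperfilter ℕ : Filter ℕ) (𝓝 (ulim a)) := by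
  have : ∃ x, Tendsto a (hyperfilter ℕ : Filter ℕ) (𝓝 x) := by
    obtain ⟨x, _, hx⟩ := (isCompact_Icc (a := -K) (b := K)).ultrafilter_le_nhds
      ((hyperfilter ℕ).map a) (by
        rw [le_principal_iff]
        refine Filter.mem_map.2 (Filter.univ_mem' fun n => ?_)
        exact abs_le.1 (h n))
    exact ⟨x, hx⟩
  exact tendsto_nhds_limUnder this

theorem ulim_eq {a : ℕ → ℝ} {K : ℝ} (h : ∀ n, |a n| ≤ K) {x : ℝ}
    (hx : Tendsto a (hyperfilter ℕ : Filter ℕ) (𝓝 x)) : ulim a = x :=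
  tendsto_nhds_unique (ulim_tendsto h) hx

theorem ulim_abs_le {a : ℕ → ℝ} {K : ℝ} (h : ∀ n, |a n| ≤ K) : |ulim a| ≤ K :=
  le_of_tendsto (ulim_tendsto h).abs (Eventually.of_forall h)

section deriv

variable {X : Type*} [NormedAddCommGroup X] [NormedSpace ℝ X]

/-- symmetric difference quotients -/
noncomputable def quot (f : X → ℝ) (v : X) (k : ℕ) : ℝ :=
  (f (((k : ℝ) + 1) • v) - f (-(((k : ℝ) + 1) • v))) / (2 * ((k : ℝ) + 1))

theorem quot_le {f : X → ℝ} {K : ℝ≥0} (hf : LipschitzWith K f) (v : X) (k : ℕ) :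
    |quot f v k| ≤ K * ‖v‖ := by
  have hk : (0 : ℝ) < 2 * ((k : ℝ) + 1) := by positivity
  rw [quot, abs_div, abs_of_pos hk, div_le_iff₀ hk]
  have h := hf.dist_le_mul (((k : ℝ) + 1) • v) (-(((k : ℝ) + 1) • v))
  rw [Real.dist_eq, dist_eq_norm, sub_neg_eq_add, ← two_smul ℝ, smul_smul, norm_smul,
    Real.norm_eq_abs, abs_of_pos hk] at h
  linarith

/-- the asymptotic derivative at infinity -/
noncomputable def D (f : X → ℝ) (v : X) : ℝ := ulim (quot f v)

theorem D_le {f : X → ℝ} {K : ℝ≥0} (hf : LipschitzWith K f) (v : X) : |D f v| ≤ K * ‖v‖ :=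
  ulim_abs_le (quot_le hf v)

theorem D_add {f g : X → ℝ} {K L : ℝ≥0} (hf : LipschitzWith K f) (hg : LipschitzWith L g) (v : X) :
    D (f + g) v = D f v + D g v := by
  refine ulim_eq (quot_le (hf.add hg) v) ?_
  have h := (ulim_tendsto (quot_le hf v)).add (ulim_tendsto (quot_le hg v))
  refine h.congr fun k => ?_
  simp only [quot, Pi.add_apply]
  ring

theorem D_smul {f : X → ℝ} {K : ℝ≥0} (hf : LipschitzWith K f) (c : ℝ) (v : X) :
    D (c • f) v = c * D f v := by
  have e : ∀ k, quot (c • f) v k = c * quot f v k := by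
    intro k
    simp only [quot, Pi.smul_apply, smul_eq_mul]
    ring
  refine ulim_eq (K := |c| * (K * ‖v‖)) (fun k => ?_) ?_
  · rw [e, abs_mul]
    exact mul_le_mul_of_nonneg_left (quot_le hf v k) (abs_nonneg c)
  · have h := (ulim_tendsto (quot_le hf v)).const_mul c
    exact h.congr fun k => (e k).symm

theorem D_neg {f : X → ℝ} {K : ℝ≥0} (hf : LipschitzWith K f) (v : X) : D f (-v) = - D f v := by
  refine ulim_eq (quot_le hf (-v)) ?_
  have h := (ulim_tendsto (quot_le hf v)).neg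
  refine h.congr fun k => ?_
  simp only [quot, smul_neg, neg_neg]
  ring

theorem D_comp (f : X → ℝ) (g : X ≃ₗᵢ[ℝ] X) (v : X) : D (fun x => f (g x)) v = D f (g v) := by
  rw [D, D]
  congr 1
  funext k
  simp only [quot, map_neg, map_smul]

theorem D_clm (φ : X →L[ℝ] ℝ) (v : X) : D (fun x => φ x) v = φ v := by
  have e : ∀ k, quot (fun x => φ x) v k = φ v := by
    intro k
    simp only [quot, map_neg, map_smul, smul_eq_mul]
    field_simp
    ring
  have h1 : quot (fun x => φ x) v = fun _ => φ v := funext e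
  rw [D, h1]
  exact ulim_eq (K := |φ v|) (fun _ => le_rfl) tendsto_const_nhds

end deriv

/-! ### the space `ℓ_1` -/

theorem toReal_one_pos : 0 < (1 : ℝ≥0∞).toReal := by simp

theorem summable_abs (x : Seq 1) : Summable fun n => |(x : ℕ → ℝ) n| := by
  have := (lp.memℓp x).summable toReal_one_pos
  simpa using this

theorem norm_one_eq (x : Seq 1) : ‖x‖ = ∑' n, |(x : ℕ → ℝ) n| := by
  rw [lp.norm_eq_tsum_rpow toReal_one_pos]
  simp

theorem add_iff (a b : Seq 1) : ‖a‖ + ‖b‖ = ‖a + b‖ ↔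
    ∀ k, |(a : ℕ → ℝ) k| + |(b : ℕ → ℝ) k| = |(a : ℕ → ℝ) k + (b : ℕ → ℝ) k| := by
  have hs : Summable fun k => |(a : ℕ → ℝ) k + (b : ℕ → ℝ) k| := summable_abs (a + b)
  have hn : ‖a + b‖ = ∑' k, |(a : ℕ → ℝ) k + (b : ℕ → ℝ) k| := norm_one_eq (a + b)
  have ht : Summable fun k => |(a : ℕ → ℝ) k| + |(b : ℕ → ℝ) k| := (summable_abs a).add (summable_abs b)
  have hn2 : ‖a‖ + ‖b‖ = ∑' k, (|(a : ℕ → ℝ) k| + |(b : ℕ → ℝ) k|) := by
    rw [Summable.tsum_add (summable_abs a) (summable_abs b), norm_one_eq, norm_one_eq]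
  have hd : ∑' k, ((|(a : ℕ → ℝ) k| + |(b : ℕ → ℝ) k|) - |(a : ℕ → ℝ) k + (b : ℕ → ℝ) k|)
      = ‖a‖ + ‖b‖ - ‖a + b‖ := by
    rw [Summable.tsum_sub ht hs, ← hn2, ← hn]
  have h0 : ∀ k, 0 ≤ (|(a : ℕ → ℝ) k| + |(b : ℕ → ℝ) k|) - |(a : ℕ → ℝ) k + (b : ℕ → ℝ) k| :=
    fun k => sub_nonneg.2 (abs_add_le _ _)
  constructor
  · intro h k
    have h1 := (ht.sub hs).le_tsum k (fun j _ => h0 j)
    rw [hd, h, sub_self] at h1
    have h2 := h0 k
    linarith
  · intro h
    rw [hn, hn2]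
    exact tsum_congr h

theorem norm_single_one (n : ℕ) (c : ℝ) : ‖(lp.single 1 n c : Seq 1)‖ = |c| := by
  rw [lp.norm_single (by simp)]
  rfl

theorem single_smul (n : ℕ) (c : ℝ) : (lp.single 1 n c : Seq 1) = c • lp.single 1 n (1 : ℝ) := by
  rw [← lp.single_smul]
  simp

/-- Surjective isometries of `ℓ_1` permute the vectors `± e_n`. -/
theorem isom_single (g : Seq 1 ≃ₗᵢ[ℝ] Seq 1) (n : ℕ) :
    ∃ m, g (lp.single 1 n (1 : ℝ)) = lp.single 1 m (1 : ℝ) ∨
      g (lp.single 1 n (1 : ℝ)) = - lp.single 1 m (1 : ℝ) := by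
  set v := g (lp.single 1 n (1 : ℝ)) with hv
  have hvn : ‖v‖ = 1 := by rw [hv, g.norm_map, norm_single_one, abs_one]
  obtain ⟨m, hm⟩ : ∃ m, (v : ℕ → ℝ) m ≠ 0 := by
    by_contra hcon
    push Not at hcon
    have : v = 0 := by
      ext k
      exact hcon k
    rw [this, norm_zero] at hvn
    exact zero_ne_one hvn
  set a : Seq 1 := lp.single 1 m ((v : ℕ → ℝ) m) with ha
  have ha1 : (a : ℕ → ℝ) m = (v : ℕ → ℝ) m := lp.single_apply_self _ _ _
  have ha2 : ∀ k, k ≠ m → (a : ℕ → ℝ) k = 0 := fun k hk => lp.single_apply_ne _ _ _ hk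
  have h1 : ‖a‖ + ‖v - a‖ = ‖a + (v - a)‖ := by
    rw [add_iff]
    intro k
    rw [lp.coeFn_sub, Pi.sub_apply]
    by_cases hk : k = m
    · rw [hk, ha1, sub_self, abs_zero, add_zero, add_zero]
    · rw [ha2 k hk, sub_zero, abs_zero, zero_add, zero_add]
  have h2 : ‖g.symm a‖ + ‖g.symm (v - a)‖ = ‖g.symm a + g.symm (v - a)‖ := by
    rw [← map_add, g.symm.norm_map, g.symm.norm_map, g.symm.norm_map]
    exact h1
  have h3 : g.symm a + g.symm (v - a) = lp.single 1 n (1 : ℝ) := by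
    rw [← map_add, add_sub_cancel, hv, g.symm_apply_apply]
  have h4 := (add_iff _ _).1 h2
  have h5 : ∀ k, k ≠ n → (g.symm a : ℕ → ℝ) k = 0 := by
    intro k hk
    have h6 := h4 k
    have h7 : (g.symm a : ℕ → ℝ) k + (g.symm (v - a) : ℕ → ℝ) k
        = (lp.single 1 n (1 : ℝ) : Seq 1) k := by
      rw [← h3]
      rfl
    rw [h7, lp.single_apply_ne _ _ _ hk, abs_zero] at h6
    have h8 := abs_nonneg ((g.symm a : ℕ → ℝ) k)
    have h9 := abs_nonneg ((g.symm (v - a) : ℕ → ℝ) k)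
    exact abs_eq_zero.1 (by linarith)
  have h6 : g.symm a = ((g.symm a : ℕ → ℝ) n) • lp.single 1 n (1 : ℝ) := by
    rw [← single_smul]
    ext k
    by_cases hk : k = n
    · subst hk
      rw [lp.single_apply_self]
    · rw [lp.single_apply_ne _ _ _ hk, h5 k hk]
  have h7 : a = ((g.symm a : ℕ → ℝ) n) • v := by
    have := congrArg g h6
    rw [g.apply_symm_apply, map_smul, ← hv] at this
    exact this
  have h8 : (g.symm a : ℕ → ℝ) n = 1 := by
    have := congrArg (fun z : Seq 1 => (z : ℕ → ℝ) m) h7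
    simp only [ha1, lp.coeFn_smul, Pi.smul_apply, smul_eq_mul] at this
    have h9 : ((g.symm a : ℕ → ℝ) n - 1) * (v : ℕ → ℝ) m = 0 := by
      rw [sub_mul, ← this]
      ring
    rcases mul_eq_zero.1 h9 with h | h
    · linarith
    · exact absurd h hm
  rw [h8, one_smul] at h7
  have h9 : |(v : ℕ → ℝ) m| = 1 := by
    rw [← norm_single_one m, ← ha, h7, hvn]
  refine ⟨m, ?_⟩
  rcases (abs_eq zero_le_one).1 h9 with h | h
  · left
    rw [← h7, ha, h]
  · right
    rw [← h7, ha, h, single_smul, neg_smul, one_smul]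

/-- the pairing with a bounded sequence -/
noncomputable def pair (d : ℕ → ℝ) (hd : ∃ K, ∀ n, |d n| ≤ K) : Seq 1 →L[ℝ] ℝ :=
  LinearMap.mkContinuousOfExistsBound
    { toFun := fun x => ∑' n, (x : ℕ → ℝ) n * d n
      map_add' := by
        intro x y
        obtain ⟨K, hK⟩ := hd
        have hs : ∀ x : Seq 1, Summable fun n => (x : ℕ → ℝ) n * d n := fun x => by
          refine Summable.of_norm_bounded ((summable_abs x).mul_right K) fun n => ?_
          rw [norm_mul]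
          exact mul_le_mul_of_nonneg_left (hK n) (norm_nonneg _)
        rw [← Summable.tsum_add (hs x) (hs y)]
        refine tsum_congr fun n => ?_
        rw [lp.coeFn_add, Pi.add_apply, add_mul]
      map_smul' := by
        intro c x
        rw [RingHom.id_apply, smul_eq_mul, ← tsum_mul_left]
        refine tsum_congr fun n => ?_
        rw [lp.coeFn_smul, Pi.smul_apply, smul_eq_mul, mul_assoc] } (by
    obtain ⟨K, hK⟩ := hd
    refine ⟨K, fun x => ?_⟩
    rw [mul_comm, norm_one_eq, ← tsum_mul_right]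
    refine tsum_of_norm_bounded ((summable_abs x).mul_right K).hasSum fun n => ?_
    rw [norm_mul]
    exact mul_le_mul_of_nonneg_left (hK n) (norm_nonneg _))

theorem pair_apply (d : ℕ → ℝ) (hd : ∃ K, ∀ n, |d n| ≤ K) (x : Seq 1) :
    pair d hd x = ∑' n, (x : ℕ → ℝ) n * d n := rfl

theorem pair_norm (d : ℕ → ℝ) {K : ℝ} (hK : ∀ n, |d n| ≤ K) (x : Seq 1) :
    ‖∑' n, (x : ℕ → ℝ) n * d n‖ ≤ K * ‖x‖ := by
  rw [mul_comm, norm_one_eq, ← tsum_mul_right]
  refine tsum_of_norm_bounded ((summable_abs x).mul_right K).hasSum fun n => ?_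
  rw [norm_mul]
  exact mul_le_mul_of_nonneg_left (hK n) (norm_nonneg _)

theorem pair_summable (d : ℕ → ℝ) (hd : ∃ K, ∀ n, |d n| ≤ K) (x : Seq 1) :
    Summable fun n => (x : ℕ → ℝ) n * d n := by
  obtain ⟨K, hK⟩ := hd
  refine Summable.of_norm_bounded ((summable_abs x).mul_right K) fun n => ?_
  rw [norm_mul]
  exact mul_le_mul_of_nonneg_left (hK n) (norm_nonneg _)

theorem D_bdd (f : Lip0 (Seq 1)) : ∃ K, ∀ n, |D (f : Seq 1 → ℝ) (lp.single 1 n (1 : ℝ))| ≤ K := by
  obtain ⟨_, K, hK⟩ := f.2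
  refine ⟨K, fun n => ?_⟩
  have := D_le hK (lp.single 1 n (1 : ℝ))
  rwa [norm_single_one, abs_one, mul_one] at this

/-- the equivariant projection -/
noncomputable def proj1 : Lip0 (Seq 1) →ₗ[ℝ] (Seq 1 →L[ℝ] ℝ) where
  toFun f := pair (fun n => D (f : Seq 1 → ℝ) (lp.single 1 n (1 : ℝ))) (D_bdd f)
  map_add' f g := by
    obtain ⟨_, K, hK⟩ := f.2
    obtain ⟨_, L, hL⟩ := g.2
    ext x
    show pair _ _ x = pair _ _ x + pair _ _ x
    rw [pair_apply, pair_apply, pair_apply, ← Summable.tsum_add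
      (pair_summable _ (D_bdd f) x) (pair_summable _ (D_bdd g) x)]
    refine tsum_congr fun n => ?_
    rw [← mul_add]
    congr 1
    exact D_add hK hL _
  map_smul' c f := by
    obtain ⟨_, K, hK⟩ := f.2
    ext x
    show pair _ _ x = c • pair _ _ x
    rw [pair_apply, pair_apply, smul_eq_mul, ← tsum_mul_left]
    refine tsum_congr fun n => ?_
    have : D ((c • f : Lip0 (Seq 1)) : Seq 1 → ℝ) (lp.single 1 n (1 : ℝ))
        = c * D (f : Seq 1 → ℝ) (lp.single 1 n (1 : ℝ)) := D_smul hK c _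
    rw [this]
    ring

theorem proj1_apply (f : Lip0 (Seq 1)) (x : Seq 1) :
    proj1 f x = ∑' n, (x : ℕ → ℝ) n * D (f : Seq 1 → ℝ) (lp.single 1 n (1 : ℝ)) := rfl

theorem proj1_single (f : Lip0 (Seq 1)) (m : ℕ) :
    proj1 f (lp.single 1 m (1 : ℝ)) = D (f : Seq 1 → ℝ) (lp.single 1 m (1 : ℝ)) := by
  rw [proj1_apply, tsum_eq_single m]
  · rw [lp.single_apply_self, one_mul]
  · intro k hk
    rw [lp.single_apply_ne _ _ _ hk, zero_mul]

theorem clm_ext {φ ψ : Seq 1 →L[ℝ] ℝ}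
    (h : ∀ n, φ (lp.single 1 n (1 : ℝ)) = ψ (lp.single 1 n (1 : ℝ))) : φ = ψ := by
  ext x
  have h1 := (lp.hasSum_single ENNReal.one_ne_top x).mapL φ
  have h2 := (lp.hasSum_single ENNReal.one_ne_top x).mapL ψ
  have h3 : (fun i => φ (lp.single 1 i ((x : ℕ → ℝ) i))) = fun i => ψ (lp.single 1 i ((x : ℕ → ℝ) i)) := by
    funext i
    rw [single_smul, map_smul, map_smul, h]
  rw [h3] at h1
  exact h1.unique h2

/-- `ℓ_1` has the equivariant dual lifting property. -/
theorem seq_one : HasEquivariantDualLifting (Seq 1) := by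
  refine ⟨proj1, ⟨⟨1, ?_⟩, ?_, ?_⟩⟩
  · intro f K hK
    rw [one_mul]
    refine ContinuousLinearMap.opNorm_le_bound _ K.2 fun x => ?_
    rw [proj1_apply]
    refine pair_norm _ (fun n => ?_) x
    have := D_le hK (lp.single 1 n (1 : ℝ))
    rwa [norm_single_one, abs_one, mul_one] at this
  · intro φ f hf
    refine clm_ext fun n => ?_
    rw [proj1_single]
    have : (f : Seq 1 → ℝ) = fun x => φ x := funext hf
    rw [this, D_clm]
  · intro g _ f h hfh x
    have key : proj1 h = (proj1 f).comp (g.toContinuousLinearEquiv : Seq 1 →L[ℝ] Seq 1) := by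
      refine clm_ext fun n => ?_
      rw [proj1_single]
      have e : (h : Seq 1 → ℝ) = fun x => (f : Seq 1 → ℝ) (g x) := funext hfh
      obtain ⟨_, K, hK⟩ := f.2
      rw [e, D_comp]
      show _ = proj1 f (g (lp.single 1 n (1 : ℝ)))
      obtain ⟨m, hm | hm⟩ := isom_single g n
      · rw [hm, proj1_single]
      · rw [hm, map_neg, proj1_single, D_neg hK]
    rw [key]
    rfl

end Pool.Agent.V1191.ELP
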